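import Mathlib

set_option autoImplicit false
set_option linter.unusedSectionVars false

namespace Pool.Agent.K4H84.FR

/-- A loopless multigraph with vertex type `V` and edge type `E` (several edges may join the same
two vertices), together with a fixed orientation of its edges. -/
structure MGraph (V E : Type) where
  /-- the tail of an edge in the fixed orientation -/
  src : E → V
  /-- the head of an edge in the fixed orientation -/
  tgt : E → V
  loopless : ∀ e, src e ≠ tgt e

variable {V E : Type} [Fintype V] [DecidableEq V] [Fintype E] [DecidableEq E]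

namespace MGraph

/-- `f` is an `A`-flow: at every vertex the sum over the edges leaving it equals the sum over the
edges entering it. -/
def IsFlow {A : Type} [AddCommGroup A] (G : MGraph V E) (f : E → A) : Prop :=
  ∀ v, (∑ e, if G.src e = v then f e else 0) = ∑ e, if G.tgt e = v then f e else 0

/-- the edge `e` joins `a` and `b` (in either direction) -/
def Joins (G : MGraph V E) (e : E) (a b : V) : Prop :=
  (G.src e = a ∧ G.tgt e = b) ∨ (G.src e = b ∧ G.tgt e = a)

/-- `C` is the edge set of a cycle (a connected 2-regular subgraph): the edges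
`e 0, ..., e (n-1)` are distinct, `n ≥ 2`, and they join consecutive vertices of the cyclic
sequence of distinct vertices `v 0, ..., v (n-1), v n = v 0`. -/
def IsCycle (G : MGraph V E) (C : Set E) : Prop :=
  ∃ (n : ℕ) (v : ℕ → V) (e : ℕ → E), 2 ≤ n ∧ v n = v 0 ∧
    (∀ i < n, ∀ j < n, v i = v j → i = j) ∧ (∀ i < n, ∀ j < n, e i = e j → i = j) ∧
    (∀ i < n, G.Joins (e i) (v i) (v (i + 1))) ∧ C = {x | ∃ i < n, e i = x}

theorem IsCycle.nonempty {G : MGraph V E} {C : Set E} (h : G.IsCycle C) : C.Nonempty := by
  obtain ⟨n, v, e, hn, -, -, -, -, rfl⟩ := h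
  exact ⟨e 0, 0, by omega, rfl⟩

/-- the nowhere-zero `A`-flows -/
def NZFlow (G : MGraph V E) (A : Type) [AddCommGroup A] : Type :=
  {f : E → A // G.IsFlow f ∧ ∀ e, f e ≠ 0}

/-- the reconfiguration graph `F(G, A)`: nowhere-zero `A`-flows, adjacent when the support of their
difference is the edge set of a cycle -/
def groupFlowGraph (G : MGraph V E) (A : Type) [AddCommGroup A] : SimpleGraph (G.NZFlow A) where
  Adj f g := G.IsCycle {e | f.1 e - g.1 e ≠ 0}
  symm := ⟨fun f g h => by
    have : {e | g.1 e - f.1 e ≠ 0} = {e | f.1 e - g.1 e ≠ 0} := by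
      ext e
      simp only [Set.mem_setOf_eq, ne_eq, sub_eq_zero]
      exact ⟨fun h h' => h h'.symm, fun h h' => h h'.symm⟩
    rw [this]; exact h⟩
  loopless := ⟨fun f h => by
    obtain ⟨e, he⟩ := h.nonempty
    simp at he⟩

/-- the nowhere-zero `k`-flows: integer flows with `0 < |f e| < k` for all edges -/
def KFlow (G : MGraph V E) (k : ℕ) : Type :=
  {f : E → ℤ // G.IsFlow f ∧ ∀ e, f e ≠ 0 ∧ |f e| < k}

/-- the reconfiguration graph `F(G, k)`: nowhere-zero `k`-flows, adjacent when the support of their
difference is the edge set of a cycle -/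
def intFlowGraph (G : MGraph V E) (k : ℕ) : SimpleGraph (G.KFlow k) where
  Adj f g := G.IsCycle {e | f.1 e - g.1 e ≠ 0}
  symm := ⟨fun f g h => by
    have : {e | g.1 e - f.1 e ≠ 0} = {e | f.1 e - g.1 e ≠ 0} := by
      ext e
      simp only [Set.mem_setOf_eq, ne_eq, sub_eq_zero]
      exact ⟨fun h h' => h h'.symm, fun h h' => h h'.symm⟩
    rw [this]; exact h⟩
  loopless := ⟨fun f h => by
    obtain ⟨e, he⟩ := h.nonempty
    simp at he⟩

/-! ### elementary facts on flows -/

section flows
variable {A : Type} [AddCommGroup A] {G : MGraph V E}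

theorem IsFlow.add {f g : E → A} (hf : G.IsFlow f) (hg : G.IsFlow g) :
    G.IsFlow (fun e => f e + g e) := by
  intro v
  have h1 : ∀ (p : E → Prop) [DecidablePred p], (∑ e, if p e then f e + g e else 0)
      = (∑ e, if p e then f e else 0) + ∑ e, if p e then g e else 0 := by
    intro p _
    rw [← Finset.sum_add_distrib]
    refine Finset.sum_congr rfl fun e _ => ?_
    split_ifs <;> simp
  rw [h1, h1, hf v, hg v]

theorem IsFlow.neg {f : E → A} (hf : G.IsFlow f) : G.IsFlow (fun e => - f e) := by
  intro v
  have h1 : ∀ (p : E → Prop) [DecidablePred p], (∑ e, if p e then - f e else 0)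
      = - (∑ e, if p e then f e else 0) := by
    intro p _
    rw [← Finset.sum_neg_distrib]
    refine Finset.sum_congr rfl fun e _ => ?_
    split_ifs <;> simp
  rw [h1, h1, hf v]

theorem IsFlow.sub {f g : E → A} (hf : G.IsFlow f) (hg : G.IsFlow g) :
    G.IsFlow (fun e => f e - g e) := by
  have := hf.add hg.neg
  simpa [sub_eq_add_neg] using this

theorem IsFlow.mul {f : E → ℤ} (hf : G.IsFlow f) (c : ℤ) : G.IsFlow (fun e => c * f e) := by
  intro v
  have h1 : ∀ (p : E → Prop) [DecidablePred p], (∑ e, if p e then c * f e else 0)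
      = c * (∑ e, if p e then f e else 0) := by
    intro p _
    rw [Finset.mul_sum]
    refine Finset.sum_congr rfl fun e _ => ?_
    split_ifs <;> simp
  rw [h1, h1, hf v]

theorem IsFlow.cast {f : E → ℤ} (hf : G.IsFlow f) (k : ℕ) :
    G.IsFlow (fun e => (f e : ZMod k)) := by
  intro v
  have := congrArg (fun z : ℤ => (z : ZMod k)) (hf v)
  push_cast at this
  exact this

/-- the net flow out of a set of vertices vanishes -/
theorem IsFlow.cut {f : E → ℤ} (hf : G.IsFlow f) (X : Finset V) :
    ∑ e, f e * ((if G.src e ∈ X then 1 else 0) - (if G.tgt e ∈ X then 1 else 0)) = 0 := by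
  have h1 : ∀ s : E → V, ∑ v ∈ X, (∑ e, if s e = v then f e else 0)
      = ∑ e, f e * (if s e ∈ X then 1 else 0) := by
    intro s
    rw [Finset.sum_comm]
    refine Finset.sum_congr rfl fun e _ => ?_
    rw [Finset.sum_ite_eq]
    split_ifs <;> simp
  have h2 : ∑ v ∈ X, (∑ e, if G.src e = v then f e else 0)
      = ∑ v ∈ X, (∑ e, if G.tgt e = v then f e else 0) :=
    Finset.sum_congr rfl fun v _ => hf v
  rw [h1, h1] at h2
  simp only [mul_sub, Finset.sum_sub_distrib]
  linarith

end flows

/-- the sum of the weights of the members of a sequence of edges -/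
def chi {A : Type} [AddCommGroup A] (n : ℕ) (e : ℕ → E) (ε : ℕ → A) (x : E) : A :=
  ∑ i ∈ Finset.range n, if e i = x then ε i else 0

theorem chi_apply {A : Type} [AddCommGroup A] {n : ℕ} {e : ℕ → E} {ε : ℕ → A}
    (he : ∀ i < n, ∀ j < n, e i = e j → i = j)
    {i : ℕ} (hi : i < n) : chi n e ε (e i) = ε i := by
  unfold chi
  rw [Finset.sum_eq_single i]
  · simp
  · intro j hj hji
    rw [if_neg]
    intro h
    exact hji (he j (Finset.mem_range.1 hj) i hi h)
  · intro h
    exact absurd (Finset.mem_range.2 hi) h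

theorem chi_not {A : Type} [AddCommGroup A] {n : ℕ} {e : ℕ → E} {ε : ℕ → A} {x : E}
    (hx : ¬ ∃ i < n, e i = x) : chi n e ε x = 0 := by
  unfold chi
  refine Finset.sum_eq_zero fun i hi => if_neg ?_
  intro h
  exact hx ⟨i, Finset.mem_range.1 hi, h⟩

theorem chi_sum {A : Type} [AddCommGroup A] (n : ℕ) (e : ℕ → E) (ε : ℕ → A) (s : E → V) (w : V) :
    (∑ x, if s x = w then chi n e ε x else 0)
      = ∑ i ∈ Finset.range n, if s (e i) = w then ε i else 0 := by
  unfold chi
  have : ∀ x, (if s x = w then (∑ i ∈ Finset.range n, if e i = x then ε i else 0) else 0)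
      = ∑ i ∈ Finset.range n, if e i = x then (if s (e i) = w then ε i else 0) else 0 := by
    intro x
    split_ifs with hx
    · refine Finset.sum_congr rfl fun i _ => ?_
      split_ifs with h1 h2 h3
      · rfl
      · rw [h1] at h2; exact absurd hx h2
      · rfl
    · symm
      refine Finset.sum_eq_zero fun i _ => ?_
      split_ifs with h1 h2
      · rw [h1] at h2; exact absurd h2 hx
      · rfl
      · rfl
  simp only [this]
  rw [Finset.sum_comm]
  refine Finset.sum_congr rfl fun i _ => ?_
  rw [Finset.sum_ite_eq]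
  simp

/-- the signed indicator function of a closed walk is a flow -/
theorem chi_flow {G : MGraph V E} {n : ℕ} {v : ℕ → V} {e : ℕ → E} {ε : ℕ → ℤ} (hv : v n = v 0)
    (h : ∀ i < n, (ε i = 1 ∧ G.src (e i) = v i ∧ G.tgt (e i) = v (i + 1)) ∨
      (ε i = -1 ∧ G.src (e i) = v (i + 1) ∧ G.tgt (e i) = v i)) :
    G.IsFlow (chi n e ε) := by
  intro w
  rw [chi_sum, chi_sum, ← sub_eq_zero, ← Finset.sum_sub_distrib]
  have h2 : ∀ i ∈ Finset.range n, ((if G.src (e i) = w then ε i else 0)
      - (if G.tgt (e i) = w then ε i else 0))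
      = (if v i = w then (1 : ℤ) else 0) - (if v (i + 1) = w then 1 else 0) := by
    intro i hi
    rcases h i (Finset.mem_range.1 hi) with ⟨h1, h2, h3⟩ | ⟨h1, h2, h3⟩
    · rw [h1, h2, h3]
    · rw [h1, h2, h3]
      split_ifs <;> simp
  rw [Finset.sum_congr rfl h2, Finset.sum_range_sub']
  rw [hv]
  simp

/-! ### paths and cuts -/

/-- there is a directed walk of length `n` from the vertex to `y` with arcs in `S` -/
def Wk (tail head : E → V) (S : Set E) (y : V) : ℕ → V → Prop
  | 0, v => v = y
  | n + 1, v => ∃ e ∈ S, tail e = v ∧ Wk tail head S y n (head e)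

theorem path_or_cut (tail head : E → V) (S : Set E) (x y : V) (e0 : E) :
    (∃ X : Finset V, x ∈ X ∧ y ∉ X ∧ ∀ e ∈ S, tail e ∈ X → head e ∈ X) ∨
    (∃ (n : ℕ) (u : ℕ → V) (q : ℕ → E), u 0 = x ∧ u n = y ∧
      (∀ i < n, q i ∈ S ∧ tail (q i) = u i ∧ head (q i) = u (i + 1)) ∧
      (∀ i ≤ n, ∀ j ≤ n, u i = u j → i = j)) := by
  classical
  by_cases hx : ∃ n, Wk tail head S y n x
  · right
    have key : ∀ (n : ℕ) (v : V), Wk tail head S y n v → (∀ m < n, ¬ Wk tail head S y m v) →
        ∃ (u : ℕ → V) (q : ℕ → E), u 0 = v ∧ u n = y ∧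
          (∀ i < n, q i ∈ S ∧ tail (q i) = u i ∧ head (q i) = u (i + 1)) ∧
          (∀ i ≤ n, Wk tail head S y (n - i) (u i) ∧
            ∀ m < n - i, ¬ Wk tail head S y m (u i)) := by
      intro n
      induction n with
      | zero =>
        intro v hv _
        refine ⟨fun _ => v, fun _ => e0, rfl, hv, fun i hi => absurd hi (by omega), ?_⟩
        intro i hi
        refine ⟨?_, fun m hm => absurd hm (by omega)⟩
        have : 0 - i = 0 := by omega
        rw [this]
        exact hv
      | succ n ih =>
        intro v hv hmin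
        obtain ⟨e, heS, het, hw⟩ := hv
        obtain ⟨u, q, hu0, hun, hq, hd⟩ := ih (head e) hw (by
          intro m hm hm'
          exact hmin (m + 1) (by omega) ⟨e, heS, het, hm'⟩)
        refine ⟨fun i => match i with | 0 => v | i + 1 => u i,
          fun i => match i with | 0 => e | i + 1 => q i, rfl, hun, ?_, ?_⟩
        · intro i hi
          cases i with
          | zero => exact ⟨heS, het, hu0.symm⟩
          | succ i => exact hq i (by omega)
        · intro i hi
          cases i with
          | zero => exact ⟨⟨e, heS, het, hw⟩, hmin⟩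
          | succ i =>
            have h1 : n + 1 - (i + 1) = n - i := by omega
            rw [h1]
            exact hd i (by omega)
    obtain ⟨u, q, hu0, hun, hq, hd⟩ := key (Nat.find hx) x (Nat.find_spec hx)
      (fun m hm => Nat.find_min hx hm)
    refine ⟨Nat.find hx, u, q, hu0, hun, hq, ?_⟩
    intro i hi j hj hij
    by_contra hne
    rcases lt_or_gt_of_ne hne with h | h
    · have h1 := (hd i hi).2 (Nat.find hx - j) (by omega)
      rw [hij] at h1
      exact h1 (hd j hj).1
    · have h1 := (hd j hj).2 (Nat.find hx - i) (by omega)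
      rw [← hij] at h1
      exact h1 (hd i hi).1
  · left
    refine ⟨Finset.univ.filter (fun v => ¬ ∃ n, Wk tail head S y n v), by simpa using hx, ?_, ?_⟩
    · simp only [Finset.mem_filter, Finset.mem_univ, true_and, not_not]
      exact ⟨0, rfl⟩
    · intro e he ht
      simp only [Finset.mem_filter, Finset.mem_univ, true_and] at ht ⊢
      rintro ⟨n, hn⟩
      exact ht ⟨n + 1, e, he, rfl, hn⟩

end MGraph

end Pool.Agent.K4H84.FR
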