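import Pool.Agent.K4H84.FR.Step

set_option autoImplicit false
set_option linter.unusedSectionVars false

namespace Pool.Agent.K4H84.FR

variable {V E : Type} [Fintype V] [DecidableEq V] [Fintype E] [DecidableEq E]

namespace MGraph

/-- a path closes to a directed cycle -/
theorem cyc_of_path {G : MGraph V E} {w : E → ℤ} (es : E) {n : ℕ} {u : ℕ → V} {q : ℕ → E}
    (h0 : u 0 = G.hd w es) (hn : u n = G.tl w es)
    (hq : ∀ i < n, G.tl w (q i) = u i ∧ G.hd w (q i) = u (i + 1))
    (hinj : ∀ i ≤ n, ∀ j ≤ n, u i = u j → i = j) :
    ∃ (N : ℕ) (v : ℕ → V) (e : ℕ → E), Ori G N v e (fun i => sg w (e i)) ∧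
      (∃ i < N, e i = es) ∧ ∀ i < N, e i = es ∨ ∃ j < n, q j = e i := by
  have hn1 : 1 ≤ n := by
    by_contra h
    have : n = 0 := by omega
    subst this
    rw [h0] at hn
    exact tl_ne_hd G w es hn.symm
  set v : ℕ → V := fun i => if i ≤ n then u i else u 0 with hv
  set e : ℕ → E := fun i => if i < n then q i else es with he
  have htl : ∀ i < n + 1, G.tl w (e i) = v i := by
    intro i hi
    by_cases h : i < n
    · simp only [he, hv, if_pos h, if_pos (le_of_lt h)]
      exact (hq i h).1
    · have : i = n := by omega
      subst this
      simp only [he, hv, lt_irrefl, if_false, le_refl, if_true]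
      exact hn.symm
  have hhd : ∀ i < n + 1, G.hd w (e i) = v (i + 1) := by
    intro i hi
    by_cases h : i < n
    · have h' : i + 1 ≤ n := h
      simp only [he, hv, if_pos h, if_pos h']
      exact (hq i h).2
    · have : i = n := by omega
      subst this
      have h' : ¬ (i + 1 ≤ i) := by omega
      simp only [he, hv, lt_irrefl, if_false, if_neg h']
      exact h0.symm
  have hvinj : ∀ i < n + 1, ∀ j < n + 1, v i = v j → i = j := by
    intro i hi j hj hij
    simp only [hv, if_pos (Nat.lt_succ_iff.1 hi), if_pos (Nat.lt_succ_iff.1 hj)] at hij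
    exact hinj i (by omega) j (by omega) hij
  have heinj : ∀ i < n + 1, ∀ j < n + 1, e i = e j → i = j := by
    intro i hi j hj hij
    apply hvinj i hi j hj
    rw [← htl i hi, ← htl j hj, hij]
  have hvn : v (n + 1) = v 0 := by
    have h' : ¬ (n + 1 ≤ n) := by omega
    simp only [hv, if_neg h', Nat.zero_le, if_true]
  refine ⟨n + 1, v, e, ⟨by omega, hvn, hvinj, heinj, ?_⟩, ⟨n, by omega, by simp [he]⟩, ?_⟩
  · intro i hi
    have h1 := htl i hi
    have h2 := hhd i hi
    unfold tl at h1
    unfold hd at h2
    unfold sg
    by_cases h : 0 < w (e i)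
    · left
      rw [if_pos h] at h1 h2
      exact ⟨if_pos h, h1, h2⟩
    · right
      rw [if_neg h] at h1 h2
      exact ⟨if_neg h, h2, h1⟩
  · intro i hi
    by_cases h : i < n
    · right
      exact ⟨i, h, by simp only [he, if_pos h]⟩
    · left
      simp only [he, if_neg h]

/-- if `w` is a flow with values in `{-1, 0, 1}` and `F` and `F + c w` are nowhere-zero `k`-flows,
then they are in one component of `F(G, k)` -/
theorem conf {G : MGraph V E} {k : ℕ} (c : ℤ) (hc : c ≠ 0) : ∀ (m : ℕ) {F w : E → ℤ}
    (hF : G.IsFlow F ∧ ∀ x, F x ≠ 0 ∧ |F x| < k) (hw : G.IsFlow w)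
    (hw1 : ∀ x, w x = 0 ∨ w x = 1 ∨ w x = -1)
    (hFw : G.IsFlow (fun x => F x + c * w x) ∧ ∀ x, (fun x => F x + c * w x) x ≠ 0 ∧
      |(fun x => F x + c * w x) x| < k),
    (Finset.univ.filter (fun x => w x ≠ 0)).card ≤ m →
    (G.intFlowGraph k).Reachable (⟨F, hF⟩ : G.KFlow k) (⟨fun x => F x + c * w x, hFw⟩ : G.KFlow k) := by
  intro m
  induction m with
  | zero =>
    intro F w hF hw hw1 hFw hm
    have h0 : ∀ x, w x = 0 := by
      intro x
      by_contra h
      have : x ∈ Finset.univ.filter (fun x => w x ≠ 0) := by simp [h]
      rw [Finset.card_eq_zero.1 (Nat.le_zero.1 hm)] at this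
      simp at this
    have : (⟨F, hF⟩ : G.KFlow k) = (⟨fun x => F x + c * w x, hFw⟩ : G.KFlow k) := by
      apply Subtype.ext
      funext x
      simp [h0 x]
    rw [this]
  | succ m ih =>
    intro F w hF hw hw1 hFw hm
    by_cases hne : ∃ es, w es ≠ 0
    · obtain ⟨es, hes⟩ := hne
      rcases path_or_cut (G.tl w) (G.hd w) {x | w x ≠ 0} (G.hd w es) (G.tl w es) es with
        ⟨X, hX1, hX2, hX3⟩ | ⟨n, u, q, hu0, hun, hq, hinj⟩
      · exfalso
        have hcut := hw.cut X
        have hterm : ∀ x, w x ≠ 0 → w x * ((if G.src x ∈ X then 1 else 0)
            - (if G.tgt x ∈ X then 1 else 0)) = ((if G.tl w x ∈ X then 1 else 0)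
            - (if G.hd w x ∈ X then 1 else 0)) := by
          intro x hx
          unfold tl hd
          rcases hw1 x with h | h | h
          · exact absurd h hx
          · rw [h]
            simp
          · rw [h]
            simp
        have hle : ∀ x ∈ (Finset.univ : Finset E), w x *
            ((if G.src x ∈ X then 1 else 0) - (if G.tgt x ∈ X then 1 else 0)) ≤ 0 := by
          intro x _
          by_cases hx : w x = 0
          · rw [hx]; simp
          · rw [hterm x hx]
            have := hX3 x hx
            split_ifs with h1 h2
            · simp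
            · exact absurd (this h1) h2
            · linarith
            · simp
        have := (Finset.sum_eq_zero_iff_of_nonpos hle).1 hcut es (Finset.mem_univ _)
        rw [hterm es hes, if_neg hX2, if_pos hX1] at this
        linarith
      · obtain ⟨N, v, e, hO, ⟨i0, hi0, hei0⟩, hall⟩ := cyc_of_path (w := w) es hu0 hun
          (fun i hi => ⟨(hq i hi).2.1, (hq i hi).2.2⟩) hinj
        set χ : E → ℤ := chi N e (fun i => sg w (e i)) with hχ
        have hχf : G.IsFlow χ := chi_flow hO.close hO.ori
        have hχon : ∀ x, (∃ i < N, e i = x) → χ x = w x ∧ w x ≠ 0 := by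
          rintro x ⟨i, hi, rfl⟩
          have hwx : w (e i) ≠ 0 := by
            rcases hall i hi with h | ⟨j, hj, h⟩
            · rw [h]; exact hes
            · rw [← h]; exact (hq j hj).1
          refine ⟨?_, hwx⟩
          rw [hχ, chi_apply hO.einj hi]
          unfold sg
          rcases hw1 (e i) with h | h | h
          · exact absurd h hwx
          · rw [h]; simp
          · rw [h]; simp
        have hχoff : ∀ x, (¬ ∃ i < N, e i = x) → χ x = 0 := by
          intro x hx
          rw [hχ]
          exact chi_not hx
        have hF1 : G.IsFlow (fun x => F x + c * χ x) ∧ ∀ x, (fun x => F x + c * χ x) x ≠ 0 ∧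
            |(fun x => F x + c * χ x) x| < k := by
          refine ⟨hF.1.add (hχf.mul c), fun x => ?_⟩
          by_cases hx : ∃ i < N, e i = x
          · have := hFw.2 x
            simp only [(hχon x hx).1]
            exact this
          · simp only [hχoff x hx, mul_zero, add_zero]
            exact hF.2 x
        have hw' : G.IsFlow (fun x => w x - χ x) := hw.sub hχf
        have hw1' : ∀ x, (fun x => w x - χ x) x = 0 ∨ (fun x => w x - χ x) x = 1 ∨
            (fun x => w x - χ x) x = -1 := by
          intro x
          by_cases hx : ∃ i < N, e i = x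
          · left
            simp only [(hχon x hx).1, sub_self]
          · simp only [hχoff x hx, sub_zero]
            exact hw1 x
        have heq : (fun x => (fun x => F x + c * χ x) x + c * (fun x => w x - χ x) x)
            = fun x => F x + c * w x := by
          funext x
          ring
        have hFw' : G.IsFlow (fun x => (fun x => F x + c * χ x) x + c * (fun x => w x - χ x) x) ∧
            ∀ x, (fun x => (fun x => F x + c * χ x) x + c * (fun x => w x - χ x) x) x ≠ 0 ∧
            |(fun x => (fun x => F x + c * χ x) x + c * (fun x => w x - χ x) x) x| < k := by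
          rw [heq]
          exact hFw
        have hcard : (Finset.univ.filter (fun x => (fun x => w x - χ x) x ≠ 0)).card ≤ m := by
          have hsub : Finset.univ.filter (fun x => (fun x => w x - χ x) x ≠ 0)
              ⊆ (Finset.univ.filter (fun x => w x ≠ 0)).erase es := by
            intro x hx
            simp only [Finset.mem_filter, Finset.mem_univ, true_and, Finset.mem_erase] at hx ⊢
            constructor
            · rintro rfl
              apply hx
              rw [(hχon x ⟨i0, hi0, hei0⟩).1]
              ring
            · intro h0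
              apply hx
              have : ¬ ∃ i < N, e i = x := fun h => (hχon x h).2 h0
              rw [hχoff x this, h0]
              ring
          have := Finset.card_le_card hsub
          rw [Finset.card_erase_of_mem (by simp [hes])] at this
          omega
        have hr := ih hF1 hw' hw1' hFw' hcard
        have heq2 : (⟨fun x => (fun x => F x + c * χ x) x + c * (fun x => w x - χ x) x, hFw'⟩ :
            G.KFlow k) = (⟨fun x => F x + c * w x, hFw⟩ : G.KFlow k) := by
          apply Subtype.ext
          exact heq
        rw [heq2] at hr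
        have hadj : (G.intFlowGraph k).Adj (⟨F, hF⟩ : G.KFlow k)
            (⟨fun x => F x + c * χ x, hF1⟩ : G.KFlow k) := by
          change G.IsCycle {x | F x - (F x + c * χ x) ≠ 0}
          refine ⟨N, v, e, hO.two, hO.close, hO.vinj, hO.einj, ?_, ?_⟩
          · intro i hi
            rcases hO.ori i hi with ⟨-, h1, h2⟩ | ⟨-, h1, h2⟩
            · exact Or.inl ⟨h1, h2⟩
            · exact Or.inr ⟨h1, h2⟩
          · ext x
            simp only [Set.mem_setOf_eq]
            constructor
            · intro h
              by_contra hx
              apply h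
              rw [hχoff x hx]
              ring
            · intro hx h
              obtain ⟨h1, h2⟩ := hχon x hx
              rw [h1] at h
              have h3 : c * w x = 0 := by linarith
              rcases mul_eq_zero.1 h3 with h4 | h4
              · exact hc h4
              · exact h2 h4
        exact hadj.reachable.trans hr
    · push Not at hne
      have : (⟨F, hF⟩ : G.KFlow k) = (⟨fun x => F x + c * w x, hFw⟩ : G.KFlow k) := by
        apply Subtype.ext
        funext x
        simp [hne x]
      rw [this]

end MGraph

end Pool.Agent.K4H84.FR
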