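import Pool.Agent.K4H84.FR.Step

set_option autoImplicit false
set_option linter.unusedSectionVars false

namespace Pool.Agent.K4H84.FR

variable {V E : Type} [Fintype V] [DecidableEq V] [Fintype E] [DecidableEq E]

namespace MGraph

/-- exactly one end of the edge `x` is in `X` -/
def Crosses (G : MGraph V E) (X : Finset V) (x : E) : Prop := ¬ (G.src x ∈ X ↔ G.tgt x ∈ X)

/-- the edges with exactly one end in `X` form a bond (a minimal nonempty edge cut) -/
def IsBond (G : MGraph V E) (X : Finset V) : Prop :=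
  (∃ x, G.Crosses X x) ∧ ∀ Y : Finset V, (∃ x, G.Crosses Y x) →
    (∀ x, G.Crosses Y x → G.Crosses X x) → ∀ x, G.Crosses X x → G.Crosses Y x

/-- `⌊k / 2⌋ |C ∩ B| < 2 k + 2 |B|` for every cycle `C` and every bond `B` -/
def CycleBond (G : MGraph V E) (k : ℕ) : Prop :=
  ∀ C : Set E, G.IsCycle C → ∀ X : Finset V, G.IsBond X →
    (k / 2) * {x ∈ C | G.Crosses X x}.ncard < 2 * (k + {x | G.Crosses X x}.ncard)

theorem crosses_of_joins {G : MGraph V E} {X : Finset V} {x : E} {a b : V} (h : G.Joins x a b) :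
    G.Crosses X x ↔ ¬ (a ∈ X ↔ b ∈ X) := by
  unfold Crosses
  rcases h with ⟨h1, h2⟩ | ⟨h1, h2⟩
  · rw [h1, h2]
  · rw [h1, h2]
    constructor
    · intro h h'; exact h h'.symm
    · intro h h'; exact h h'.symm

theorem Joins.symm {G : MGraph V E} {x : E} {a b : V} (h : G.Joins x a b) : G.Joins x b a :=
  Or.symm h

theorem joins_self (G : MGraph V E) (x : E) : G.Joins x (G.src x) (G.tgt x) := Or.inl ⟨rfl, rfl⟩

/-- a closed set can be replaced by a closed set whose boundary is a bond -/
theorem bondify {G : MGraph V E} (tail head : E → V) (hth : ∀ x, G.Joins x (tail x) (head x))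
    (S : Set E) (X : Finset V) {x0 y0 : V} {es : E} (hes : G.Joins es x0 y0) (hx : x0 ∈ X)
    (hy : y0 ∉ X) (hX : ∀ x ∈ S, tail x ∈ X → head x ∈ X) :
    ∃ X' : Finset V, x0 ∈ X' ∧ y0 ∉ X' ∧ (∀ x ∈ S, tail x ∈ X' → head x ∈ X') ∧ G.IsBond X' := by
  classical
  set X1 : Finset V := Finset.univ.filter
    (fun b => Relation.ReflTransGen (fun p q => q ∈ X ∧ ∃ x, G.Joins x p q) x0 b) with hX1
  have mem1 : ∀ b, b ∈ X1 ↔
      Relation.ReflTransGen (fun p q => q ∈ X ∧ ∃ x, G.Joins x p q) x0 b := by
    intro b; simp [hX1]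
  have sub1 : ∀ b, b ∈ X1 → b ∈ X := by
    intro b hb
    rw [mem1] at hb
    induction hb with
    | refl => exact hx
    | tail _ h _ => exact h.1
  have clo1 : ∀ x a b, G.Joins x a b → a ∈ X1 → b ∈ X → b ∈ X1 := by
    intro x a b hj ha hb
    rw [mem1] at ha ⊢
    exact ha.tail ⟨hb, x, hj⟩
  have x0m : x0 ∈ X1 := by rw [mem1]
  have y0m : y0 ∉ X1 := fun h => hy (sub1 _ h)
  set Y1 : Finset V := Finset.univ.filter
    (fun b => Relation.ReflTransGen (fun p q => q ∉ X1 ∧ ∃ x, G.Joins x p q) y0 b) with hY1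
  have mem2 : ∀ b, b ∈ Y1 ↔
      Relation.ReflTransGen (fun p q => q ∉ X1 ∧ ∃ x, G.Joins x p q) y0 b := by
    intro b; simp [hY1]
  have sub2 : ∀ b, b ∈ Y1 → b ∉ X1 := by
    intro b hb
    rw [mem2] at hb
    induction hb with
    | refl => exact y0m
    | tail _ h _ => exact h.1
  have clo2 : ∀ x a b, G.Joins x a b → a ∈ Y1 → b ∉ X1 → b ∈ Y1 := by
    intro x a b hj ha hb
    rw [mem2] at ha ⊢
    exact ha.tail ⟨hb, x, hj⟩
  have y0m2 : y0 ∈ Y1 := by rw [mem2]
  have memc : ∀ b, b ∈ Finset.univ \ Y1 ↔ b ∉ Y1 := by intro b; simp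
  -- crossing edges
  have cr : ∀ x, G.Crosses (Finset.univ \ Y1) x → ∃ a b, G.Joins x a b ∧ a ∈ X1 ∧ b ∈ Y1 := by
    intro x hx
    unfold Crosses at hx
    rw [memc, memc] at hx
    by_cases h1 : G.src x ∈ Y1
    · have h2 : G.tgt x ∉ Y1 := by
        intro h2
        apply hx
        simp [h1, h2]
      refine ⟨G.tgt x, G.src x, (G.joins_self x).symm, ?_, h1⟩
      by_contra h3
      exact h2 (clo2 x _ _ (G.joins_self x) h1 h3)
    · have h2 : G.tgt x ∈ Y1 := by
        by_contra h2
        apply hx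
        simp [h1, h2]
      refine ⟨G.src x, G.tgt x, G.joins_self x, ?_, h2⟩
      by_contra h3
      exact h1 (clo2 x _ _ (G.joins_self x).symm h2 h3)
  refine ⟨Finset.univ \ Y1, ?_, ?_, ?_, ?_, ?_⟩
  · rw [memc]
    intro h
    exact sub2 _ h x0m
  · rw [memc]
    simp [y0m2]
  · intro x hxS ht
    rw [memc] at ht ⊢
    intro hh
    have h1 : tail x ∈ X1 := by
      by_contra h3
      exact ht (clo2 x _ _ (hth x).symm hh h3)
    exact sub2 _ hh (clo1 x _ _ (hth x) h1 (hX x hxS (sub1 _ h1)))
  · refine ⟨es, ?_⟩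
    rw [crosses_of_joins hes, memc, memc]
    intro h
    exact h.1 (fun h' => sub2 _ h' x0m) y0m2
  · intro Y hYne hY
    have con1 : ∀ b, b ∈ X1 → (b ∈ Y ↔ x0 ∈ Y) := by
      intro b hb
      rw [mem1] at hb
      induction hb with
      | refl => exact Iff.rfl
      | @tail p q hp h ih =>
        rw [← ih]
        obtain ⟨x, hj⟩ := h.2
        have hp1 : p ∈ X1 := (mem1 p).2 hp
        have hq1 : q ∈ X1 := clo1 x p q hj hp1 h.1
        by_contra hcon
        have h1 : G.Crosses Y x := by
          rw [crosses_of_joins hj]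
          intro h'
          exact hcon h'.symm
        have h2 := hY x h1
        rw [crosses_of_joins hj, memc, memc] at h2
        apply h2
        constructor
        · intro _ h'
          exact sub2 _ h' hq1
        · intro _ h'
          exact sub2 _ h' hp1
    have con2 : ∀ b, b ∈ Y1 → (b ∈ Y ↔ y0 ∈ Y) := by
      intro b hb
      rw [mem2] at hb
      induction hb with
      | refl => exact Iff.rfl
      | @tail p q hp h ih =>
        rw [← ih]
        obtain ⟨x, hj⟩ := h.2
        have hp1 : p ∈ Y1 := (mem2 p).2 hp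
        have hq1 : q ∈ Y1 := clo2 x p q hj hp1 h.1
        by_contra hcon
        have h1 : G.Crosses Y x := by
          rw [crosses_of_joins hj]
          intro h'
          exact hcon h'.symm
        have h2 := hY x h1
        rw [crosses_of_joins hj, memc, memc] at h2
        apply h2
        constructor
        · intro h'
          exact absurd hp1 h'
        · intro h'
          exact absurd hq1 h'
    obtain ⟨x1, hx1⟩ := hYne
    obtain ⟨a1, b1, hj1, ha1, hb1⟩ := cr x1 (hY x1 hx1)
    rw [crosses_of_joins hj1, con1 a1 ha1, con2 b1 hb1] at hx1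
    intro x hxc
    obtain ⟨a, b, hj, ha, hb⟩ := cr x hxc
    rw [crosses_of_joins hj, con1 a ha, con2 b hb]
    exact hx1

/-- the number of times a cycle leaves a set with a bond as boundary -/
theorem count_out {G : MGraph V E} {k : ℕ} (hτ : G.CycleBond k) {N : ℕ} {v : ℕ → V} {e : ℕ → E}
    {ε : ℕ → ℤ} (hO : Ori G N v e ε) {X : Finset V} (hX : G.IsBond X) :
    ((Finset.range N).filter (fun i => v i ∈ X ∧ v (i + 1) ∉ X)).card
      = ((Finset.range N).filter (fun i => v i ∉ X ∧ v (i + 1) ∈ X)).card ∧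
    (k / 2) * ((Finset.range N).filter (fun i => v i ∈ X ∧ v (i + 1) ∉ X)).card
      < k + {x | G.Crosses X x}.ncard := by
  classical
  have hjoin : ∀ i < N, G.Joins (e i) (v i) (v (i + 1)) := by
    intro i hi
    rcases hO.ori i hi with ⟨-, h1, h2⟩ | ⟨-, h1, h2⟩
    · exact Or.inl ⟨h1, h2⟩
    · exact Or.inr ⟨h1, h2⟩
  have hC : G.IsCycle {x | ∃ i < N, e i = x} :=
    ⟨N, v, e, hO.two, hO.close, hO.vinj, hO.einj, hjoin, rfl⟩
  have h1 := hτ _ hC X hX
  set O := (Finset.range N).filter (fun i => v i ∈ X ∧ v (i + 1) ∉ X) with hOd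
  set I := (Finset.range N).filter (fun i => v i ∉ X ∧ v (i + 1) ∈ X) with hId
  have htel : ∑ i ∈ Finset.range N, ((if v i ∈ X then (1 : ℤ) else 0)
      - (if v (i + 1) ∈ X then 1 else 0)) = 0 := by
    rw [Finset.sum_range_sub']
    rw [hO.close]
    simp
  have hsplit : ∑ i ∈ Finset.range N, ((if v i ∈ X then (1 : ℤ) else 0)
      - (if v (i + 1) ∈ X then 1 else 0)) = (O.card : ℤ) - I.card := by
    rw [hOd, hId, Finset.card_filter, Finset.card_filter]
    push_cast
    rw [← Finset.sum_sub_distrib]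
    refine Finset.sum_congr rfl fun i _ => ?_
    by_cases h2 : v i ∈ X <;> by_cases h3 : v (i + 1) ∈ X <;> simp [h2, h3]
  have hOI : O.card = I.card := by
    have := hsplit.symm.trans htel
    omega
  have hdisj : Disjoint O I := by
    rw [Finset.disjoint_left]
    intro i hi hi'
    simp only [hOd, hId, Finset.mem_filter] at hi hi'
    exact hi'.2.1 hi.2.1
  have hsub : (((O ∪ I).image e : Finset E) : Set E) ⊆
      {x ∈ {x | ∃ i < N, e i = x} | G.Crosses X x} := by
    intro x hx
    simp only [Finset.coe_image, Set.mem_image, Finset.mem_coe, Finset.mem_union] at hx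
    obtain ⟨i, hi, rfl⟩ := hx
    have hiN : i < N := by
      rcases hi with hi | hi
      · exact Finset.mem_range.1 (Finset.mem_filter.1 hi).1
      · exact Finset.mem_range.1 (Finset.mem_filter.1 hi).1
    refine ⟨⟨i, hiN, rfl⟩, ?_⟩
    rw [crosses_of_joins (hjoin i hiN)]
    rcases hi with hi | hi
    · have := (Finset.mem_filter.1 hi).2
      intro h
      exact this.2 (h.1 this.1)
    · have := (Finset.mem_filter.1 hi).2
      intro h
      exact this.1 (h.2 this.2)
  have hcard : ((O ∪ I).image e).card = (O ∪ I).card := by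
    apply Finset.card_image_of_injOn
    intro i hi j hj hij
    have hN : ∀ i, i ∈ O ∪ I → i < N := by
      intro i hi
      rcases Finset.mem_union.1 hi with hi | hi
      · exact Finset.mem_range.1 (Finset.mem_filter.1 hi).1
      · exact Finset.mem_range.1 (Finset.mem_filter.1 hi).1
    exact hO.einj i (hN i hi) j (hN j hj) hij
  have hle := Set.ncard_le_ncard hsub (Set.toFinite _)
  rw [Set.ncard_coe_finset, hcard, Finset.card_union_of_disjoint hdisj, ← hOI] at hle
  refine ⟨hOI, ?_⟩
  have h2 := Nat.mul_le_mul_left (k / 2) hle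
  have h3 : (k / 2) * (O.card + O.card) = 2 * ((k / 2) * O.card) := by ring
  rw [h3] at h2
  omega

/-- the cut argument in general -/
theorem no_cut_gen {G : MGraph V E} {k : ℕ} {f : E → ZMod k} (hf : ∀ x, f x ≠ 0)
    {N : ℕ} {v : ℕ → V} {e : ℕ → E} {ε : ℕ → ℤ} (hO : Ori G N v e ε)
    {F : E → ℤ} (hF : G.Lift k f F) {c : ℤ} (hc1 : 1 ≤ c) (hck : c ≤ k)
    {is : ℕ} (his : is < N) (hbad : k - c < ε is * F (e is))
    (X : Finset V) (hX1 : G.hd F (e is) ∈ X) (hX2 : G.tl F (e is) ∉ X)
    (hX3 : ∀ x, (¬ ∃ i < N, e i = x ∧ -c < ε i * F (e i) ∧ ε i * F (e i) < 0) →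
      G.tl F x ∈ X → G.hd F x ∈ X)
    (hOI : ((Finset.range N).filter (fun i => v i ∈ X ∧ v (i + 1) ∉ X)).card
      = ((Finset.range N).filter (fun i => v i ∉ X ∧ v (i + 1) ∈ X)).card)
    (ht : c * (((Finset.range N).filter (fun i => v i ∈ X ∧ v (i + 1) ∉ X)).card : ℤ)
      < k + ({x | G.Crosses X x}.ncard : ℤ)) :
    False := by
  classical
  have hcut := (hF.1.add ((chi_flow hO.close hO.ori).mul (c - 1))).cut X
  set T : ℕ → ℤ := fun i => (c - 1) * (if v i ∈ X ∧ v (i + 1) ∉ X then 1 else 0)
    + (if v i ∉ X ∧ v (i + 1) ∈ X then 1 else 0) - (if i = is then (k : ℤ) else 0) with hT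
  have hoff : ∀ x, (¬ ∃ i < N, e i = x) → (F x + (c - 1) * chi N e ε x) *
      ((if G.src x ∈ X then 1 else 0) - (if G.tgt x ∈ X then 1 else 0))
      ≤ 0 - (if G.Crosses X x then 1 else 0) := by
    intro x hx
    rw [chi_not hx, mul_zero, add_zero]
    unfold Crosses
    have h1 := hX3 x (fun ⟨i, hi, h, _⟩ => hx ⟨i, hi, h⟩)
    have h2 := hF.ne hf x
    unfold tl hd at h1
    by_cases h : 0 < F x
    · rw [if_pos h, if_pos h] at h1
      by_cases h3 : G.src x ∈ X <;> by_cases h4 : G.tgt x ∈ X
      · simp [h3, h4]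
      · exact absurd (h1 h3) h4
      · simp only [h3, h4, if_true, if_false, false_iff, not_true_eq_false, not_false_eq_true]
        linarith
      · simp [h3, h4]
    · have h' : F x < 0 := lt_of_le_of_ne (not_lt.1 h) h2
      rw [if_neg h, if_neg h] at h1
      by_cases h3 : G.src x ∈ X <;> by_cases h4 : G.tgt x ∈ X
      · simp [h3, h4]
      · simp only [h3, h4, if_true, if_false, true_iff, not_false_eq_true]
        linarith
      · exact absurd (h1 h4) h3
      · simp [h3, h4]
  have hon : ∀ i < N, (F (e i) + (c - 1) * chi N e ε (e i)) *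
      ((if G.src (e i) ∈ X then 1 else 0) - (if G.tgt (e i) ∈ X then 1 else 0))
      = (ε i * F (e i) + (c - 1)) *
        ((if v i ∈ X then 1 else 0) - (if v (i + 1) ∈ X then 1 else 0)) := by
    intro i hi
    rw [chi_apply hO.einj hi]
    rcases hO.ori i hi with ⟨h1, h2, h3⟩ | ⟨h1, h2, h3⟩
    · rw [h1, h2, h3]; ring
    · rw [h1, h2, h3]; ring
  -- the direction of the flow on the edges of the cycle
  have hdir : ∀ i < N, (0 < ε i * F (e i) → G.tl F (e i) = v i ∧ G.hd F (e i) = v (i + 1)) ∧
      (ε i * F (e i) < 0 → G.tl F (e i) = v (i + 1) ∧ G.hd F (e i) = v i) := by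
    intro i hi
    unfold tl hd
    rcases hO.ori i hi with ⟨ha, hb, hc⟩ | ⟨ha, hb, hc⟩
    · rw [ha, one_mul]
      constructor
      · intro h
        rw [if_pos h, if_pos h]
        exact ⟨hb, hc⟩
      · intro h
        rw [if_neg (not_lt.2 h.le), if_neg (not_lt.2 h.le)]
        exact ⟨hc, hb⟩
    · rw [ha]
      constructor
      · intro h
        have h' : ¬ 0 < F (e i) := by omega
        rw [if_neg h', if_neg h']
        exact ⟨hc, hb⟩
      · intro h
        have h' : 0 < F (e i) := by omega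
        rw [if_pos h', if_pos h']
        exact ⟨hb, hc⟩
  have hne : ∀ i < N, ε i * F (e i) ≠ 0 := by
    intro i hi
    have h2 := hF.ne hf (e i)
    rcases hO.ori i hi with ⟨ha, -, -⟩ | ⟨ha, -, -⟩
    · rw [ha]; omega
    · rw [ha]; omega
  have hon2 : ∀ i < N, (ε i * F (e i) + (c - 1)) *
      ((if v i ∈ X then 1 else 0) - (if v (i + 1) ∈ X then 1 else 0))
      ≤ T i - (if ¬ (v i ∈ X ↔ v (i + 1) ∈ X) then 1 else 0) := by
    intro i hi
    by_cases his' : i = is
    · subst his'
      have hpos : 0 < ε i * F (e i) := by omega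
      obtain ⟨h1, h2⟩ := (hdir i hi).1 hpos
      rw [h1] at hX2
      rw [h2] at hX1
      simp only [hT, if_true, hX2, hX1, if_false, false_and, and_self, not_false_eq_true,
        not_true_eq_false, false_iff]
      linarith
    · simp only [hT, if_neg his', sub_zero]
      by_cases hforb : -c < ε i * F (e i) ∧ ε i * F (e i) < 0
      · obtain ⟨h1, h2⟩ := hforb
        by_cases h3 : v i ∈ X <;> by_cases h4 : v (i + 1) ∈ X
        · simp [h3, h4]
        · simp only [h3, h4, if_true, if_false, not_false_eq_true, and_self, true_iff,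
            not_true_eq_false]
          linarith
        · simp only [h3, h4, if_true, if_false, not_true_eq_false, and_false, and_self,
            not_false_eq_true, false_iff]
          linarith
        · simp [h3, h4]
      · have h1 := hX3 (e i) (by
          rintro ⟨j, hj, hji, hj2⟩
          have := hO.einj j hj i hi hji
          subst this
          exact hforb hj2)
        rcases lt_or_gt_of_ne (hne i hi) with h2 | h2
        · have h5 : ε i * F (e i) ≤ -c := by
            by_contra h
            exact hforb ⟨by omega, h2⟩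
          obtain ⟨h3, h4⟩ := (hdir i hi).2 h2
          rw [h3, h4] at h1
          by_cases h6 : v i ∈ X <;> by_cases h7 : v (i + 1) ∈ X
          · simp [h6, h7]
          · simp only [h6, h7, if_true, if_false, not_false_eq_true, and_self, true_iff,
              not_true_eq_false]
            linarith
          · exact absurd (h1 h7) h6
          · simp [h6, h7]
        · obtain ⟨h3, h4⟩ := (hdir i hi).1 h2
          rw [h3, h4] at h1
          by_cases h6 : v i ∈ X <;> by_cases h7 : v (i + 1) ∈ X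
          · simp [h6, h7]
          · exact absurd (h1 h6) h7
          · simp only [h6, h7, if_true, if_false, not_true_eq_false, and_false, and_self,
              not_false_eq_true, false_iff]
            linarith
          · simp [h6, h7]
  have hjoin : ∀ i < N, G.Joins (e i) (v i) (v (i + 1)) := by
    intro i hi
    rcases hO.ori i hi with ⟨-, h1, h2⟩ | ⟨-, h1, h2⟩
    · exact Or.inl ⟨h1, h2⟩
    · exact Or.inr ⟨h1, h2⟩
  have hle : ∑ x, (F x + (c - 1) * chi N e ε x) *
      ((if G.src x ∈ X then 1 else 0) - (if G.tgt x ∈ X then 1 else 0))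
      ≤ ∑ x, (chi N e T x - (if G.Crosses X x then 1 else 0)) := by
    refine Finset.sum_le_sum fun x _ => ?_
    by_cases hx : ∃ i < N, e i = x
    · obtain ⟨i, hi, rfl⟩ := hx
      rw [hon i hi, chi_apply hO.einj hi]
      have h1 := hon2 i hi
      have h2 : (if G.Crosses X (e i) then (1 : ℤ) else 0)
          = (if ¬ (v i ∈ X ↔ v (i + 1) ∈ X) then 1 else 0) := by
        by_cases h3 : G.Crosses X (e i)
        · rw [if_pos h3, if_pos ((crosses_of_joins (hjoin i hi)).1 h3)]
        · rw [if_neg h3, if_neg (fun h4 => h3 ((crosses_of_joins (hjoin i hi)).2 h4))]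
      rw [h2]
      exact h1
    · rw [chi_not (ε := T) hx]
      exact hoff x hx
  have hsum : ∑ x, chi N e T x = ∑ i ∈ Finset.range N, T i := by
    unfold chi
    rw [Finset.sum_comm]
    refine Finset.sum_congr rfl fun i _ => ?_
    rw [Finset.sum_ite_eq]
    simp
  have hT2 : ∑ i ∈ Finset.range N, T i = (c - 1) *
      (((Finset.range N).filter (fun i => v i ∈ X ∧ v (i + 1) ∉ X)).card : ℤ)
      + (((Finset.range N).filter (fun i => v i ∉ X ∧ v (i + 1) ∈ X)).card : ℤ) - k := by
    simp only [hT]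
    rw [Finset.sum_sub_distrib, Finset.sum_add_distrib, ← Finset.mul_sum, Finset.sum_ite_eq',
      if_pos (Finset.mem_range.2 his), Finset.card_filter, Finset.card_filter]
    push_cast
    rfl
  have hB : ∑ x, (if G.Crosses X x then (1 : ℤ) else 0) = ({x | G.Crosses X x}.ncard : ℤ) := by
    have h1 : {x | G.Crosses X x}.ncard = (Finset.univ.filter (fun x => G.Crosses X x)).card := by
      rw [← Set.ncard_coe_finset]
      congr 1
      ext x
      simp
    rw [h1, Finset.card_filter]
    push_cast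
    rfl
  rw [hcut, Finset.sum_sub_distrib, hsum, hT2, hB, ← hOI] at hle
  linarith

/-- some lift has no bad edge -/
theorem unbad_gen {G : MGraph V E} {k : ℕ} {f : E → ZMod k} (hf : ∀ x, f x ≠ 0)
    {N : ℕ} {v : ℕ → V} {e : ℕ → E} {ε : ℕ → ℤ} (hO : Ori G N v e ε)
    (hτ : G.CycleBond k) {c : ℤ} (hc1 : 1 ≤ c) (hck : c ≤ k) (hcτ : c ≤ ((k / 2 : ℕ) : ℤ)) :
    ∀ (m : ℕ) {F : E → ℤ}, G.Lift k f F →
      ((Finset.range N).filter (fun i => k - c < ε i * F (e i))).card ≤ m →
      ∃ F', G.Lift k f F' ∧ ∀ i < N, ε i * F' (e i) ≤ k - c := by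
  intro m
  induction m with
  | zero =>
    intro F hF hm
    refine ⟨F, hF, fun i hi => ?_⟩
    by_contra h
    push Not at h
    have : i ∈ (Finset.range N).filter (fun i => k - c < ε i * F (e i)) := by
      simp only [Finset.mem_filter, Finset.mem_range]
      exact ⟨hi, h⟩
    rw [Finset.card_eq_zero.1 (Nat.le_zero.1 hm)] at this
    simp at this
  | succ m ih =>
    intro F hF hm
    by_cases hne : ∃ is < N, k - c < ε is * F (e is)
    · obtain ⟨is, his, hbad⟩ := hne
      have hth : ∀ x, G.Joins x (G.tl F x) (G.hd F x) := by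
        intro x
        unfold tl hd
        split_ifs
        · exact Or.inl ⟨rfl, rfl⟩
        · exact Or.inr ⟨rfl, rfl⟩
      rcases path_or_cut (G.tl F) (G.hd F)
        {x | ¬ ∃ i < N, e i = x ∧ -c < ε i * F (e i) ∧ ε i * F (e i) < 0}
        (G.hd F (e is)) (G.tl F (e is)) (e is) with
        ⟨X, hX1, hX2, hX3⟩ | ⟨n, u, q, hu0, hun, hq, hinj⟩
      · exfalso
        obtain ⟨X', h1, h2, h3, h4⟩ := bondify (G.tl F) (G.hd F) hth
          {x | ¬ ∃ i < N, e i = x ∧ -c < ε i * F (e i) ∧ ε i * F (e i) < 0} X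
          (hth (e is)).symm hX1 hX2 hX3
        obtain ⟨h5, h6⟩ := count_out hτ hO h4
        refine no_cut_gen hf hO hF hc1 hck his hbad X' h1 h2 (fun x hx => h3 x hx) h5 ?_
        have h7 : (0 : ℤ) ≤ (((Finset.range N).filter
          (fun i => v i ∈ X' ∧ v (i + 1) ∉ X')).card : ℤ) := by positivity
        have h8 := mul_le_mul_of_nonneg_right hcτ h7
        refine lt_of_le_of_lt h8 ?_
        exact_mod_cast h6
      · obtain ⟨F1, hF1, -, hes1, hall⟩ := flip hf hF (e is) hu0 hun
          (fun i hi => ⟨(hq i hi).2.1, (hq i hi).2.2⟩) hinj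
        refine ih hF1 ?_
        have hsub : (Finset.range N).filter (fun i => k - c < ε i * F1 (e i))
            ⊆ ((Finset.range N).filter (fun i => k - c < ε i * F (e i))).erase is := by
          intro i hi
          simp only [Finset.mem_filter, Finset.mem_range, Finset.mem_erase] at hi ⊢
          obtain ⟨hiN, hi1⟩ := hi
          have hsgn : ∀ j < N, k - c < ε j * F1 (e j) → F1 (e j) = F (e j) - k * sg F (e j) →
              -c < ε j * F (e j) ∧ ε j * F (e j) < 0 := by
            intro j hj h1 h2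
            have h3 := hF.ne hf (e j)
            have h4 := abs_lt.1 (hF.2.1 (e j))
            rw [h2] at h1
            unfold sg at h1
            rcases hO.ori j hj with ⟨ha, -, -⟩ | ⟨ha, -, -⟩
            · rw [ha] at h1 ⊢
              split_ifs at h1 with h5
              · exfalso; linarith
              · have : F (e j) < 0 := lt_of_le_of_ne (not_lt.1 h5) h3
                constructor <;> linarith
            · rw [ha] at h1 ⊢
              split_ifs at h1 with h5
              · constructor <;> linarith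
              · exfalso
                have : F (e j) < 0 := lt_of_le_of_ne (not_lt.1 h5) h3
                linarith
          constructor
          · rintro rfl
            have := (hsgn i hiN hi1 hes1).2
            linarith
          · refine ⟨hiN, ?_⟩
            rcases hall (e i) with h | ⟨h1, h2⟩
            · rw [← h]; exact hi1
            · have h3 := hsgn i hiN hi1 h2
              rcases h1 with h1 | ⟨j, hj, h1⟩
              · have := hO.einj i hiN is his h1
                subst this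
                exact hbad
              · exfalso
                apply (hq j hj).1
                exact ⟨i, hiN, h1.symm, h3⟩
        have := Finset.card_le_card hsub
        rw [Finset.card_erase_of_mem (by
          simp only [Finset.mem_filter, Finset.mem_range]
          exact ⟨his, hbad⟩)] at this
        omega
    · push Not at hne
      exact ⟨F, hF, hne⟩

/-- one move in the direction of the cycle can be lifted -/
theorem step_gen {G : MGraph V E} {k : ℕ} {f g : E → ZMod k} (hf : ∀ x, f x ≠ 0)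
    (hg : ∀ x, g x ≠ 0)
    {N : ℕ} {v : ℕ → V} {e : ℕ → E} {ε : ℕ → ℤ} (hO : Ori G N v e ε)
    (hτ : G.CycleBond k) {c : ℤ} (hc1 : 1 ≤ c) (hck : c ≤ k) (hcτ : c ≤ ((k / 2 : ℕ) : ℤ))
    (hfg : ∀ x, g x = f x + ((c * chi N e ε x : ℤ) : ZMod k)) {F : E → ℤ} (hF : G.Lift k f F) :
    ∃ F1 G1, G.Lift k f F1 ∧ G.Lift k g G1 ∧ G.IsCycle {x | F1 x - G1 x ≠ 0} := by
  obtain ⟨F1, hF1, hgood⟩ := unbad_gen hf hO hτ hc1 hck hcτ _ hF le_rfl
  have hcast : ∀ x, ((F1 x + c * chi N e ε x : ℤ) : ZMod k) = g x := by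
    intro x
    rw [hfg x, ← hF1.2.2 x]
    push_cast
    ring
  have hne : ∀ x (t : ℤ), F1 x + c * chi N e ε x ≠ k * t := by
    intro x t h
    apply hg x
    rw [← hcast x, h]
    simp
  refine ⟨F1, fun x => F1 x + c * chi N e ε x, hF1,
    ⟨hF1.1.add ((chi_flow hO.close hO.ori).mul c), ?_, hcast⟩, ?_⟩
  · intro x
    by_cases hx : ∃ i < N, e i = x
    · obtain ⟨i, hi, rfl⟩ := hx
      have h1 := abs_lt.1 (hF1.2.1 (e i))
      have h2 := hgood i hi
      have h3 := hne (e i) 1
      have h4 := hne (e i) (-1)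
      simp only [chi_apply hO.einj hi] at h3 h4 ⊢
      rw [abs_lt]
      rcases hO.ori i hi with ⟨ha, -, -⟩ | ⟨ha, -, -⟩
      · rw [ha] at h2 h3 h4 ⊢
        constructor <;> omega
      · rw [ha] at h2 h3 h4 ⊢
        constructor <;> omega
    · simp only [chi_not hx, mul_zero, add_zero]
      exact hF1.2.1 x
  · refine ⟨N, v, e, hO.two, hO.close, hO.vinj, hO.einj, ?_, ?_⟩
    · intro i hi
      rcases hO.ori i hi with ⟨-, h1, h2⟩ | ⟨-, h1, h2⟩
      · exact Or.inl ⟨h1, h2⟩
      · exact Or.inr ⟨h1, h2⟩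
    · ext x
      simp only [Set.mem_setOf_eq]
      constructor
      · intro h
        by_contra hx
        apply h
        rw [chi_not hx]
        ring
      · rintro ⟨i, hi, rfl⟩
        rw [chi_apply hO.einj hi]
        rcases hO.ori i hi with ⟨ha, -, -⟩ | ⟨ha, -, -⟩
        · rw [ha]; omega
        · rw [ha]; omega

/-- a nonzero residue is plus or minus a number between `1` and `k / 2` -/
theorem half_cases {k : ℕ} (hk : 2 ≤ k) (ζ : ZMod k) (h : ζ ≠ 0) :
    ∃ c : ℕ, 1 ≤ c ∧ c ≤ k / 2 ∧ (ζ = ((c : ℤ) : ZMod k) ∨ ζ = -((c : ℤ) : ZMod k)) := by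
  have : NeZero k := ⟨by omega⟩
  have h1 : ζ.val < k := ZMod.val_lt ζ
  have h2 : ζ.val ≠ 0 := by
    intro h0
    exact h ((ZMod.val_eq_zero ζ).1 h0)
  have h3 : ((ζ.val : ℕ) : ZMod k) = ζ := ZMod.natCast_zmod_val ζ
  by_cases h4 : ζ.val ≤ k / 2
  · refine ⟨ζ.val, by omega, h4, Or.inl ?_⟩
    push_cast
    exact h3.symm
  · refine ⟨k - ζ.val, by omega, by omega, Or.inr ?_⟩
    have : ((k - ζ.val : ℕ) : ZMod k) = - ζ := by
      rw [Nat.cast_sub h1.le, h3]
      simp
    push_cast
    rw [this]
    ring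

/-- every move between nowhere-zero `ℤ_k`-flows lifts -/
theorem move_gen {G : MGraph V E} {k : ℕ} (hk : 2 ≤ k) (hτ : G.CycleBond k)
    {f g : E → ZMod k}
    (hf : ∀ x, f x ≠ 0) (hg : ∀ x, g x ≠ 0) (hfl : G.IsFlow f) (hgl : G.IsFlow g)
    (hC : G.IsCycle {x | f x - g x ≠ 0}) {F : E → ℤ} (hF : G.Lift k f F) :
    ∃ F1 G1, G.Lift k f F1 ∧ G.Lift k g G1 ∧ G.IsCycle {x | F1 x - G1 x ≠ 0} := by
  obtain ⟨N, v, e, ε, hO, ζ, hζ, hz⟩ := decomp hfl hgl hC
  obtain ⟨c, hc1, hc2, hc⟩ := half_cases hk ζ hζ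
  have hc1' : (1 : ℤ) ≤ (c : ℤ) := by exact_mod_cast hc1
  have hck : (c : ℤ) ≤ k := by
    have : c ≤ k := le_trans hc2 (Nat.div_le_self k 2)
    exact_mod_cast this
  have hcτ : (c : ℤ) ≤ ((k / 2 : ℕ) : ℤ) := by exact_mod_cast hc2
  rcases hc with h | h
  · refine step_gen hf hg hO hτ hc1' hck hcτ ?_ hF
    intro x
    rw [Int.cast_mul, ← h, ← hz x]
    ring
  · obtain ⟨F1, G1, hF1, hG1, hcyc⟩ := step_gen (f := fun x => - f x) (g := fun x => - g x)
      (fun x => neg_ne_zero.2 (hf x)) (fun x => neg_ne_zero.2 (hg x)) hO hτ hc1' hck hcτ (by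
        intro x
        have h1 : ((c : ℤ) : ZMod k) = - ζ := by rw [h]; ring
        rw [Int.cast_mul, h1, neg_mul, ← hz x]
        ring) hF.neg
    refine ⟨fun x => - F1 x, fun x => - G1 x, ?_, ?_, ?_⟩
    · have := hF1.neg
      simpa using this
    · have := hG1.neg
      simpa using this
    · have : {x | (fun x => - F1 x) x - (fun x => - G1 x) x ≠ 0} = {x | F1 x - G1 x ≠ 0} := by
        ext x
        simp only [Set.mem_setOf_eq]
        constructor
        · intro h h'
          apply h
          linarith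
        · intro h h'
          apply h
          linarith
      rw [this]
      exact hcyc

theorem walk_reachable_gen {G : MGraph V E} {k : ℕ} (hk : 2 ≤ k) (hτ : G.CycleBond k)
    {f g : G.NZFlow (ZMod k)} (p : (G.groupFlowGraph (ZMod k)).Walk f g) :
    ∀ {F F' : E → ℤ} (hF : G.Lift k f.1 F) (hF' : G.Lift k g.1 F'),
      (G.intFlowGraph k).Reachable (hF.toK f.2.2) (hF'.toK g.2.2) := by
  induction p with
  | nil =>
    intro F F' hF hF'
    exact lifts_reachable _ _ hF hF' le_rfl
  | @cons f f1 g hadj p ih =>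
    intro F F' hF hF'
    obtain ⟨F1, G1, hF1, hG1, hcyc⟩ := move_gen hk hτ f.2.2 f1.2.2 f.2.1 f1.2.1 hadj hF
    have h1 := lifts_reachable f.2.2 _ hF hF1 le_rfl
    have h2 : (G.intFlowGraph k).Adj (hF1.toK f.2.2) (hG1.toK f1.2.2) := hcyc
    exact h1.trans (h2.reachable.trans (ih hG1 hF'))

/-- the condition on cycles and bonds is always true for `k ≤ 5` -/
theorem cycleBond_of_le {G : MGraph V E} {k : ℕ} (hk : 2 ≤ k) (hk5 : k ≤ 5) : G.CycleBond k := by
  intro C _ X _
  have h1 : {x ∈ C | G.Crosses X x}.ncard ≤ {x | G.Crosses X x}.ncard := by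
    apply Set.ncard_le_ncard _ (Set.toFinite _)
    intro x hx
    exact hx.2
  have h2 : k / 2 ≤ 2 := by omega
  have h3 : (k / 2) * {x ∈ C | G.Crosses X x}.ncard ≤ 2 * {x | G.Crosses X x}.ncard :=
    Nat.mul_le_mul h2 h1
  omega

end MGraph

end Pool.Agent.K4H84.FR
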