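import Pool.Agent.K4H84.FR.Basic

set_option autoImplicit false
set_option linter.unusedSectionVars false

namespace Pool.Agent.K4H84.FR

variable {V E : Type} [Fintype V] [DecidableEq V] [Fintype E] [DecidableEq E]

namespace MGraph

/-- `F` is an integer flow with values in `(-k, k)` lifting `f` -/
def Lift (G : MGraph V E) (k : ℕ) (f : E → ZMod k) (F : E → ℤ) : Prop :=
  G.IsFlow F ∧ (∀ e, |F e| < k) ∧ ∀ e, (F e : ZMod k) = f e

/-- tail of `e` in the direction in which the flow `F` is positive -/
def tl (G : MGraph V E) (F : E → ℤ) (e : E) : V := if 0 < F e then G.src e else G.tgt e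
/-- head of `e` in the direction in which the flow `F` is positive -/
def hd (G : MGraph V E) (F : E → ℤ) (e : E) : V := if 0 < F e then G.tgt e else G.src e
/-- sign of `F e` -/
def sg (F : E → ℤ) (e : E) : ℤ := if 0 < F e then 1 else -1

theorem Lift.ne {G : MGraph V E} {k : ℕ} {f : E → ZMod k} {F : E → ℤ} (h : G.Lift k f F)
    (hf : ∀ e, f e ≠ 0) (e : E) : F e ≠ 0 := by
  intro h0
  apply hf e
  rw [← h.2.2 e, h0]
  simp

theorem tl_ne_hd (G : MGraph V E) (F : E → ℤ) (e : E) : G.tl F e ≠ G.hd F e := by
  unfold tl hd
  split_ifs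
  · exact G.loopless e
  · exact (G.loopless e).symm

/-- subtracting `k` around a directed cycle -/
theorem flip {G : MGraph V E} {k : ℕ} {f : E → ZMod k} (hf : ∀ e, f e ≠ 0)
    {F : E → ℤ} (hF : G.Lift k f F) (es : E) {n : ℕ} {u : ℕ → V} {q : ℕ → E}
    (h0 : u 0 = G.hd F es) (hn : u n = G.tl F es)
    (hq : ∀ i < n, G.tl F (q i) = u i ∧ G.hd F (q i) = u (i + 1))
    (hinj : ∀ i ≤ n, ∀ j ≤ n, u i = u j → i = j) :
    ∃ F' : E → ℤ, G.Lift k f F' ∧ G.IsCycle {x | F x - F' x ≠ 0} ∧
      F' es = F es - k * sg F es ∧
      (∀ x, F' x = F x ∨ ((x = es ∨ ∃ i < n, q i = x) ∧ F' x = F x - k * sg F x)) := by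
  have hn1 : 1 ≤ n := by
    by_contra h
    have : n = 0 := by omega
    subst this
    rw [h0] at hn
    exact tl_ne_hd G F es hn.symm
  set v : ℕ → V := fun i => if i ≤ n then u i else u 0 with hv
  set e : ℕ → E := fun i => if i < n then q i else es with he
  have htl : ∀ i < n + 1, G.tl F (e i) = v i := by
    intro i hi
    by_cases h : i < n
    · simp only [he, hv, if_pos h, if_pos (le_of_lt h)]
      exact (hq i h).1
    · have : i = n := by omega
      subst this
      simp only [he, hv, lt_irrefl, if_false, le_refl, if_true]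
      exact hn.symm
  have hhd : ∀ i < n + 1, G.hd F (e i) = v (i + 1) := by
    intro i hi
    by_cases h : i < n
    · have h' : i + 1 ≤ n := h
      simp only [he, hv, if_pos h, if_pos h']
      exact (hq i h).2
    · have : i = n := by omega
      subst this
      have h' : ¬ (i + 1 ≤ i) := by omega
      simp only [he, hv, lt_irrefl, if_false, if_neg h']
      exact h0.symm
  have hvinj : ∀ i < n + 1, ∀ j < n + 1, v i = v j → i = j := by
    intro i hi j hj hij
    simp only [hv, if_pos (Nat.lt_succ_iff.1 hi), if_pos (Nat.lt_succ_iff.1 hj)] at hij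
    exact hinj i (by omega) j (by omega) hij
  have heinj : ∀ i < n + 1, ∀ j < n + 1, e i = e j → i = j := by
    intro i hi j hj hij
    apply hvinj i hi j hj
    rw [← htl i hi, ← htl j hj, hij]
  have hvn : v (n + 1) = v 0 := by
    have h' : ¬ (n + 1 ≤ n) := by omega
    simp only [hv, if_neg h', Nat.zero_le, if_true]
  have hchi : G.IsFlow (chi (n + 1) e (fun i => sg F (e i))) := by
    apply chi_flow hvn
    intro i hi
    have h1 := htl i hi
    have h2 := hhd i hi
    unfold tl at h1
    unfold hd at h2
    unfold sg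
    by_cases h : 0 < F (e i)
    · left
      rw [if_pos h] at h1 h2
      exact ⟨if_pos h, h1, h2⟩
    · right
      rw [if_neg h] at h1 h2
      exact ⟨if_neg h, h2, h1⟩
  have hval : ∀ x, (∃ i < n + 1, e i = x) →
      F x - k * chi (n + 1) e (fun i => sg F (e i)) x = F x - k * sg F x := by
    rintro x ⟨i, hi, rfl⟩
    rw [chi_apply heinj hi]
  have hval0 : ∀ x, (¬ ∃ i < n + 1, e i = x) →
      F x - k * chi (n + 1) e (fun i => sg F (e i)) x = F x := by
    intro x hx
    rw [chi_not hx]
    simp
  have hset : ∀ x, (∃ i < n + 1, e i = x) → (x = es ∨ ∃ i < n, q i = x) := by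
    rintro x ⟨i, hi, rfl⟩
    by_cases h : i < n
    · right
      exact ⟨i, h, by simp only [he, if_pos h]⟩
    · left
      simp only [he, if_neg h]
  have hkpos : (0 : ℤ) < k := lt_of_le_of_lt (abs_nonneg _) (hF.2.1 es)
  refine ⟨fun x => F x - k * chi (n + 1) e (fun i => sg F (e i)) x, ⟨?_, ?_, ?_⟩, ?_, ?_, ?_⟩
  · exact hF.1.sub (hchi.mul k)
  · intro x
    have hb := abs_lt.1 (hF.2.1 x)
    have hx0 := hF.ne hf x
    by_cases hx : ∃ i < n + 1, e i = x
    · simp only [hval x hx]
      unfold sg
      rw [abs_lt]
      split_ifs with h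
      · constructor <;> linarith
      · have : F x < 0 := lt_of_le_of_ne (not_lt.1 h) hx0
        constructor <;> linarith
    · simp only [hval0 x hx]
      exact hF.2.1 x
  · intro x
    push_cast
    rw [hF.2.2 x]
    simp
  · refine ⟨n + 1, v, e, by omega, hvn, hvinj, heinj, ?_, ?_⟩
    · intro i hi
      have h1 := htl i hi
      have h2 := hhd i hi
      unfold tl at h1
      unfold hd at h2
      by_cases h : 0 < F (e i)
      · rw [if_pos h] at h1 h2
        exact Or.inl ⟨h1, h2⟩
      · rw [if_neg h] at h1 h2
        exact Or.inr ⟨h2, h1⟩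
    · ext x
      simp only [Set.mem_setOf_eq]
      constructor
      · intro h
        by_contra hx
        apply h
        rw [hval0 x hx]
        ring
      · intro hx
        rw [hval x hx]
        unfold sg
        split_ifs <;> intro h <;> linarith
  · exact hval es ⟨n, by omega, by simp [he]⟩
  · intro x
    by_cases hx : ∃ i < n + 1, e i = x
    · exact Or.inr ⟨hset x hx, hval x hx⟩
    · exact Or.inl (hval0 x hx)

/-- two lifts differ at an edge by `0` or by one flip -/
theorem Lift.two {G : MGraph V E} {k : ℕ} {f : E → ZMod k} (hf : ∀ e, f e ≠ 0)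
    {F F' : E → ℤ} (hF : G.Lift k f F) (hF' : G.Lift k f F') (x : E) :
    F' x = F x ∨ F' x = F x - k * sg F x := by
  have h1 := abs_lt.1 (hF.2.1 x)
  have h2 := abs_lt.1 (hF'.2.1 x)
  have h3 := hF.ne hf x
  have h4 := hF'.ne hf x
  have h5 : ((F' x - F x : ℤ) : ZMod k) = 0 := by
    push_cast
    rw [hF.2.2 x, hF'.2.2 x, sub_self]
  rw [ZMod.intCast_zmod_eq_zero_iff_dvd] at h5
  obtain ⟨c, hc⟩ := h5
  have hkpos : (0 : ℤ) < k := lt_of_le_of_lt (abs_nonneg _) (hF.2.1 x)
  have hc1 : c < 2 := by
    by_contra h
    push Not at h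
    have : (k : ℤ) * 2 ≤ k * c := by nlinarith
    linarith
  have hc2 : -2 < c := by
    by_contra h
    push Not at h
    have : (k : ℤ) * c ≤ k * (-2) := by nlinarith
    linarith
  unfold sg
  have hc3 : c = -1 ∨ c = 0 ∨ c = 1 := by omega
  rcases hc3 with rfl | rfl | rfl
  · right
    split_ifs with h
    · linarith
    · exfalso
      have : F x < 0 := lt_of_le_of_ne (not_lt.1 h) h3
      linarith
  · left
    linarith
  · right
    split_ifs with h
    · exfalso
      linarith
    · linarith

/-- the vertex of `F(G, k)` defined by a lift -/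
def Lift.toK {G : MGraph V E} {k : ℕ} {f : E → ZMod k} (hf : ∀ e, f e ≠ 0)
    {F : E → ℤ} (hF : G.Lift k f F) : G.KFlow k :=
  ⟨F, hF.1, fun e => ⟨hF.ne hf e, hF.2.1 e⟩⟩

/-- all lifts of one nowhere-zero `ℤ_k`-flow lie in one component of `F(G, k)` -/
theorem lifts_reachable {G : MGraph V E} {k : ℕ} {f : E → ZMod k} (hf : ∀ e, f e ≠ 0) :
    ∀ (m : ℕ) {F F' : E → ℤ} (hF : G.Lift k f F) (hF' : G.Lift k f F'),
      (Finset.univ.filter (fun x => F x ≠ F' x)).card ≤ m →
      (G.intFlowGraph k).Reachable (hF.toK hf) (hF'.toK hf) := by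
  intro m
  induction m with
  | zero =>
    intro F F' hF hF' hm
    have : F = F' := by
      funext x
      by_contra h
      have : x ∈ Finset.univ.filter (fun x => F x ≠ F' x) := by simp [h]
      rw [Finset.card_eq_zero.1 (Nat.le_zero.1 hm)] at this
      simp at this
    subst this
    exact SimpleGraph.Reachable.refl _
  | succ m ih =>
    intro F F' hF hF' hm
    by_cases hne : ∃ es, F es ≠ F' es
    · obtain ⟨es, hes⟩ := hne
      have hkpos : (0 : ℤ) < k := lt_of_le_of_lt (abs_nonneg _) (hF.2.1 es)
      have hflip : ∀ x, F x ≠ F' x → F' x = F x - k * sg F x := by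
        intro x hx
        rcases hF.two hf hF' x with h | h
        · exact absurd h.symm hx
        · exact h
      rcases path_or_cut (G.tl F) (G.hd F) {x | F x ≠ F' x} (G.hd F es) (G.tl F es) es with
        ⟨X, hX1, hX2, hX3⟩ | ⟨n, u, q, hu0, hun, hq, hinj⟩
      · exfalso
        have hcut := (hF.1.sub hF'.1).cut X
        have hterm : ∀ x, F x ≠ F' x → (F x - F' x) * ((if G.src x ∈ X then 1 else 0)
            - (if G.tgt x ∈ X then 1 else 0)) = k * ((if G.tl F x ∈ X then 1 else 0)
            - (if G.hd F x ∈ X then 1 else 0)) := by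
          intro x hx
          rw [hflip x hx]
          unfold sg tl hd
          split_ifs <;> ring
        have hle : ∀ x ∈ (Finset.univ : Finset E), (F x - F' x) *
            ((if G.src x ∈ X then 1 else 0) - (if G.tgt x ∈ X then 1 else 0)) ≤ 0 := by
          intro x _
          by_cases hx : F x = F' x
          · rw [hx]; simp
          · rw [hterm x hx]
            have := hX3 x hx
            split_ifs with h1 h2
            · simp
            · exact absurd (this h1) h2
            · linarith
            · simp
        have := (Finset.sum_eq_zero_iff_of_nonpos hle).1 hcut es (Finset.mem_univ _)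
        rw [hterm es hes, if_neg hX2, if_pos hX1] at this
        linarith
      · obtain ⟨F1, hF1, hcyc, hes1, hall⟩ := flip hf hF es hu0 hun
          (fun i hi => ⟨(hq i hi).2.1, (hq i hi).2.2⟩) hinj
        have hadj : (G.intFlowGraph k).Adj (hF.toK hf) (hF1.toK hf) := hcyc
        refine hadj.reachable.trans (ih hF1 hF' ?_)
        have hsub : Finset.univ.filter (fun x => F1 x ≠ F' x)
            ⊆ (Finset.univ.filter (fun x => F x ≠ F' x)).erase es := by
          intro x hx
          simp only [Finset.mem_filter, Finset.mem_univ, true_and, Finset.mem_erase] at hx ⊢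
          constructor
          · rintro rfl
            apply hx
            rw [hes1, hflip x hes]
          · intro hFx
            rcases hall x with h | ⟨h1, h2⟩
            · rw [h] at hx; exact hx hFx
            · rcases h1 with rfl | ⟨i, hi, rfl⟩
              · exact hes hFx
              · exact (hq i hi).1 hFx
        have := Finset.card_le_card hsub
        rw [Finset.card_erase_of_mem (by simp [hes])] at this
        omega
    · push Not at hne
      have : F = F' := funext hne
      subst this
      exact SimpleGraph.Reachable.refl _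

end MGraph

end Pool.Agent.K4H84.FR
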