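import Pool.Agent.K4H84.FR.Conf

set_option autoImplicit false
set_option linter.unusedSectionVars false
set_option linter.unusedVariables false

namespace Pool.Agent.K4H84.FR

variable {V E : Type} [Fintype V] [DecidableEq V] [Fintype E] [DecidableEq E]

namespace MGraph

/-- `s, t : E → W` is a dual graph of `G` with edge set `E` (suitably oriented): for every abelian
group the flows of `G` are the potential differences of functions on `W`. -/
def IsDual (G : MGraph V E) {W : Type} (s t : E → W) : Prop :=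
  ∀ (A : Type) [AddCommGroup A] (f : E → A),
    G.IsFlow f ↔ ∃ c : W → A, ∀ e, f e = c (s e) - c (t e)

/-- the potential differences of `P` are nonzero and less than six -/
def Leg {W : Type} (s t : E → W) (P : W → ℤ) : Prop :=
  ∀ x, P (s x) - P (t x) ≠ 0 ∧ |P (s x) - P (t x)| < ((6 : ℕ) : ℤ)

/-- the `6`-flow of a potential -/
def toF {G : MGraph V E} {W : Type} {s t : E → W} (hD : G.IsDual s t) {P : W → ℤ}
    (hP : Leg s t P) : G.KFlow 6 :=
  ⟨fun x => P (s x) - P (t x), (hD ℤ _).2 ⟨P, fun _ => rfl⟩, hP⟩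

/-- removal of the bad edges -/
theorem kempe_lift {W : Type} (s t : E → W) (A : W → Prop) [DecidablePred A] :
    ∀ (m : ℕ) {P : W → ℤ}, Leg s t P → (∀ a b, A a → A b → (3 : ℤ) ∣ P a - P b) →
      (∀ x, (A (s x) ∧ ¬ A (t x)) ∨ (¬ A (s x) ∧ A (t x)) → ¬ (6 : ℤ) ∣ P (s x) - P (t x) - 3) →
      (Finset.univ.filter (fun x => (A (s x) ∧ ¬ A (t x) ∧ 3 ≤ P (s x) - P (t x)) ∨
        (¬ A (s x) ∧ A (t x) ∧ P (s x) - P (t x) ≤ -3))).card ≤ m →
      ∃ P1 : W → ℤ, (∀ w, (6 : ℤ) ∣ P1 w - P w) ∧ Leg s t P1 ∧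
        ∀ x, ¬ ((A (s x) ∧ ¬ A (t x) ∧ 3 ≤ P1 (s x) - P1 (t x)) ∨
        (¬ A (s x) ∧ A (t x) ∧ P1 (s x) - P1 (t x) ≤ -3)) := by
  intro m
  induction m with
  | zero =>
    intro P hP hA hc hm
    refine ⟨P, fun w => by simp, hP, fun x hx => ?_⟩
    have : x ∈ Finset.univ.filter (fun x => (A (s x) ∧ ¬ A (t x) ∧ 3 ≤ P (s x) - P (t x)) ∨
        (¬ A (s x) ∧ A (t x) ∧ P (s x) - P (t x) ≤ -3)) := by
      rw [Finset.mem_filter]
      exact ⟨Finset.mem_univ _, hx⟩
    rw [Finset.card_eq_zero.1 (Nat.le_zero.1 hm)] at this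
    simp at this
  | succ m ih =>
    intro P hP hA hc hm
    by_cases hne : ∃ x, (A (s x) ∧ ¬ A (t x) ∧ 3 ≤ P (s x) - P (t x)) ∨
        (¬ A (s x) ∧ A (t x) ∧ P (s x) - P (t x) ≤ -3)
    · obtain ⟨x0, hx0⟩ := hne
      obtain ⟨M, ⟨w0, hw0, hM⟩, hx0'⟩ : ∃ M : ℤ, (∃ w0, A w0 ∧ P w0 = M) ∧
          ((A (s x0) ∧ ¬ A (t x0) ∧ P (s x0) = M ∧ P (t x0) ≤ M - 3) ∨
          (¬ A (s x0) ∧ A (t x0) ∧ P (t x0) = M ∧ P (s x0) ≤ M - 3)) := by
        rcases hx0 with ⟨h1, h2, h3⟩ | ⟨h1, h2, h3⟩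
        · exact ⟨P (s x0), ⟨s x0, h1, rfl⟩, Or.inl ⟨h1, h2, rfl, by linarith⟩⟩
        · exact ⟨P (t x0), ⟨t x0, h2, rfl⟩, Or.inr ⟨h1, h2, rfl, by linarith⟩⟩
      set i : W → ℤ := fun w => if (A w ∧ M ≤ P w) ∨ (¬ A w ∧ M + 1 ≤ P w) then 1 else 0 with hi
      have hi1 : ∀ w, A w → (M ≤ P w ∧ i w = 1) ∨ (P w < M ∧ i w = 0) := by
        intro w hw
        by_cases h : M ≤ P w
        · left
          exact ⟨h, by simp only [hi]; rw [if_pos (Or.inl ⟨hw, h⟩)]⟩
        · right
          refine ⟨not_le.1 h, ?_⟩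
          simp only [hi]
          rw [if_neg]
          rintro (⟨_, h1⟩ | ⟨h1, _⟩)
          · exact h h1
          · exact h1 hw
      have hi2 : ∀ w, ¬ A w → (M + 1 ≤ P w ∧ i w = 1) ∨ (P w ≤ M ∧ i w = 0) := by
        intro w hw
        by_cases h : M + 1 ≤ P w
        · left
          exact ⟨h, by simp only [hi]; rw [if_pos (Or.inr ⟨hw, h⟩)]⟩
        · right
          refine ⟨by omega, ?_⟩
          simp only [hi]
          rw [if_neg]
          rintro (⟨h1, _⟩ | ⟨_, h1⟩)
          · exact hw h1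
          · exact h h1
      have hi3 : ∀ w, (M ≤ P w ∧ i w = 1) ∨ (P w ≤ M ∧ i w = 0) := by
        intro w
        by_cases hw : A w
        · rcases hi1 w hw with ⟨h1, h2⟩ | ⟨h1, h2⟩
          · exact Or.inl ⟨h1, h2⟩
          · exact Or.inr ⟨by omega, h2⟩
        · rcases hi2 w hw with ⟨h1, h2⟩ | ⟨h1, h2⟩
          · exact Or.inl ⟨by omega, h2⟩
          · exact Or.inr ⟨h1, h2⟩
      obtain ⟨P1, h1, h2, h3⟩ := ih (P := fun w => P w - 6 * i w) (by
          intro x
          obtain ⟨h1, h2⟩ := hP x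
          rw [abs_lt] at h2
          push_cast at h2
          simp only []
          rw [abs_lt]
          push_cast
          rcases hi3 (s x) with ⟨h3, h4⟩ | ⟨h3, h4⟩ <;> rcases hi3 (t x) with ⟨h5, h6⟩ | ⟨h5, h6⟩ <;>
            rw [h4, h6] <;> omega) (by
          intro a b ha hb
          have := hA a b ha hb
          omega) (by
          intro x hx
          have := hc x hx
          omega) (by
          have hsub : Finset.univ.filter (fun x => (A (s x) ∧ ¬ A (t x) ∧
              3 ≤ (P (s x) - 6 * i (s x)) - (P (t x) - 6 * i (t x))) ∨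
              (¬ A (s x) ∧ A (t x) ∧ (P (s x) - 6 * i (s x)) - (P (t x) - 6 * i (t x)) ≤ -3))
              ⊆ (Finset.univ.filter (fun x => (A (s x) ∧ ¬ A (t x) ∧ 3 ≤ P (s x) - P (t x)) ∨
              (¬ A (s x) ∧ A (t x) ∧ P (s x) - P (t x) ≤ -3))).erase x0 := by
            intro x hx
            rw [Finset.mem_filter] at hx
            rw [Finset.mem_erase, Finset.mem_filter]
            obtain ⟨-, hx⟩ := hx
            obtain ⟨g1, g2⟩ := hP x
            rw [abs_lt] at g2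
            push_cast at g2
            rcases hx with ⟨h1, h2, h3⟩ | ⟨h1, h2, h3⟩
            · have h4 := hc x (Or.inl ⟨h1, h2⟩)
              have h5 := hA (s x) w0 h1 hw0
              rw [hM] at h5
              refine ⟨?_, Finset.mem_univ _, Or.inl ⟨h1, h2, ?_⟩⟩
              · rintro rfl
                rcases hx0' with ⟨k1, k2, k3, k4⟩ | ⟨k1, k2, k3, k4⟩
                · rcases hi1 (s x) h1 with ⟨h6, h7⟩ | ⟨h6, h7⟩ <;>
                    rcases hi2 (t x) h2 with ⟨h8, h9⟩ | ⟨h8, h9⟩ <;> rw [h7, h9] at h3 <;> omega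
                · exact k1 h1
              · rcases hi1 (s x) h1 with ⟨h6, h7⟩ | ⟨h6, h7⟩ <;>
                  rcases hi2 (t x) h2 with ⟨h8, h9⟩ | ⟨h8, h9⟩ <;> rw [h7, h9] at h3 <;> omega
            · have h4 := hc x (Or.inr ⟨h1, h2⟩)
              have h5 := hA (t x) w0 h2 hw0
              rw [hM] at h5
              refine ⟨?_, Finset.mem_univ _, Or.inr ⟨h1, h2, ?_⟩⟩
              · rintro rfl
                rcases hx0' with ⟨k1, k2, k3, k4⟩ | ⟨k1, k2, k3, k4⟩
                · exact h1 k1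
                · rcases hi2 (s x) h1 with ⟨h6, h7⟩ | ⟨h6, h7⟩ <;>
                    rcases hi1 (t x) h2 with ⟨h8, h9⟩ | ⟨h8, h9⟩ <;> rw [h7, h9] at h3 <;> omega
              · rcases hi2 (s x) h1 with ⟨h6, h7⟩ | ⟨h6, h7⟩ <;>
                  rcases hi1 (t x) h2 with ⟨h8, h9⟩ | ⟨h8, h9⟩ <;> rw [h7, h9] at h3 <;> omega
          have := Finset.card_le_card hsub
          rw [Finset.card_erase_of_mem (by
            rw [Finset.mem_filter]
            exact ⟨Finset.mem_univ _, hx0⟩)] at this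
          exact le_trans this (by omega))
      refine ⟨P1, fun w => ?_, h2, h3⟩
      have := h1 w
      omega
    · push Not at hne
      refine ⟨P, fun w => by simp, hP, fun x hx => ?_⟩
      rcases hx with ⟨g1, g2, g3⟩ | ⟨g1, g2, g3⟩
      · have := (hne x).1 g1 g2
        omega
      · have := (hne x).2 g1 g2
        omega

/-- the Kempe change on one class modulo three -/
theorem kempe_move {G : MGraph V E} {W : Type} {s t : E → W} (hD : G.IsDual s t)
    (A : W → Prop) [DecidablePred A] {P : W → ℤ} (hP : Leg s t P)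
    (hA : ∀ a b, A a → A b → (3 : ℤ) ∣ P a - P b)
    (hc : ∀ x, (A (s x) ∧ ¬ A (t x)) ∨ (¬ A (s x) ∧ A (t x)) →
      ¬ (6 : ℤ) ∣ P (s x) - P (t x) - 3) :
    ∃ (P' : W → ℤ) (hP' : Leg s t P'), (∀ w, (3 : ℤ) ∣ P' w - P w) ∧
      (∀ x, (6 : ℤ) ∣ (P' (s x) - P' (t x)) - (P (s x) - P (t x))
        - 3 * ((if A (s x) then 1 else 0) - (if A (t x) then 1 else 0))) ∧
      (G.intFlowGraph 6).Reachable (toF hD hP) (toF hD hP') := by
  obtain ⟨P1, h1, h2, h3⟩ := kempe_lift s t A _ hP hA hc le_rfl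
  have hf : ∀ x, ((P (s x) - P (t x) : ℤ) : ZMod 6) ≠ 0 := by
    intro x h0
    rw [ZMod.intCast_zmod_eq_zero_iff_dvd] at h0
    exact (hP x).1 (Int.eq_zero_of_abs_lt_dvd h0 (hP x).2)
  have hL : G.Lift 6 (fun x => ((P (s x) - P (t x) : ℤ) : ZMod 6)) (fun x => P (s x) - P (t x)) :=
    ⟨(hD ℤ _).2 ⟨P, fun _ => rfl⟩, fun x => (hP x).2, fun _ => rfl⟩
  have hL1 : G.Lift 6 (fun x => ((P (s x) - P (t x) : ℤ) : ZMod 6))
      (fun x => P1 (s x) - P1 (t x)) := by
    refine ⟨(hD ℤ _).2 ⟨P1, fun _ => rfl⟩, fun x => (h2 x).2, fun x => ?_⟩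
    rw [← sub_eq_zero, ← Int.cast_sub, ZMod.intCast_zmod_eq_zero_iff_dvd]
    have a1 := h1 (s x)
    have a2 := h1 (t x)
    push_cast
    omega
  have hr1 : (G.intFlowGraph 6).Reachable (toF hD hP) (toF hD h2) :=
    lifts_reachable hf _ hL hL1 le_rfl
  have hP' : Leg s t (fun w => P1 w + 3 * (if A w then 1 else 0)) := by
    intro x
    obtain ⟨g1, g2⟩ := h2 x
    rw [abs_lt] at g2
    push_cast at g2
    have g3 := h3 x
    have g4 := hc x
    have a1 := h1 (s x)
    have a2 := h1 (t x)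
    simp only []
    rw [abs_lt]
    push_cast
    by_cases k1 : A (s x) <;> by_cases k2 : A (t x)
    · simp only [k1, k2, if_true]
      omega
    · have g5 := g4 (Or.inl ⟨k1, k2⟩)
      simp only [k1, k2, if_true, if_false, true_and, not_false_eq_true, not_true_eq_false,
        false_and, or_false, not_le] at g3 ⊢
      omega
    · have g5 := g4 (Or.inr ⟨k1, k2⟩)
      simp only [k1, k2, if_true, if_false, true_and, not_false_eq_true, not_true_eq_false,
        false_and, false_or, not_le] at g3 ⊢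
      omega
    · simp only [k1, k2, if_false]
      omega
  set w : E → ℤ := fun x => (if A (s x) then 1 else 0) - (if A (t x) then 1 else 0) with hw
  have hwf : G.IsFlow w := (hD ℤ _).2 ⟨fun w => if A w then 1 else 0, fun _ => rfl⟩
  have hw1 : ∀ x, w x = 0 ∨ w x = 1 ∨ w x = -1 := by
    intro x
    simp only [hw]
    by_cases k1 : A (s x) <;> by_cases k2 : A (t x) <;> simp [k1, k2]
  have heq : (fun x => (fun x => P1 (s x) - P1 (t x)) x + 3 * w x)
      = fun x => (P1 (s x) + 3 * (if A (s x) then 1 else 0))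
        - (P1 (t x) + 3 * (if A (t x) then 1 else 0)) := by
    funext x
    simp only [hw]
    ring
  have hFw : G.IsFlow (fun x => (fun x => P1 (s x) - P1 (t x)) x + 3 * w x) ∧
      ∀ x, (fun x => (fun x => P1 (s x) - P1 (t x)) x + 3 * w x) x ≠ 0 ∧
      |(fun x => (fun x => P1 (s x) - P1 (t x)) x + 3 * w x) x| < ((6 : ℕ) : ℤ) := by
    rw [heq]
    exact (toF hD hP').2
  have hr2 : (G.intFlowGraph 6).Reachable (toF hD h2)
      (⟨fun x => (fun x => P1 (s x) - P1 (t x)) x + 3 * w x, hFw⟩ : G.KFlow 6) :=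
    conf (G := G) (k := 6) 3 (by norm_num) _ (toF hD h2).2 hwf hw1 hFw le_rfl
  have heq2 : (⟨fun x => (fun x => P1 (s x) - P1 (t x)) x + 3 * w x, hFw⟩ : G.KFlow 6)
      = toF hD hP' := by
    apply Subtype.ext
    exact heq
  refine ⟨_, hP', ?_, ?_, hr1.trans ?_⟩
  · intro w'
    have a1 := h1 w'
    by_cases k1 : A w'
    · simp only [k1, if_true]
      omega
    · simp only [k1, if_false]
      omega
  · intro x
    have a1 := h1 (s x)
    have a2 := h1 (t x)
    by_cases k1 : A (s x) <;> by_cases k2 : A (t x) <;> simp only [k1, k2, if_true, if_false] <;>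
      omega
  · rw [heq2] at hr2
    exact hr2

/-- shifting a set by three, one class modulo three after the other -/
theorem kempe_all {G : MGraph V E} {W : Type} {s t : E → W} (hD : G.IsDual s t)
    (S : W → Prop) [DecidablePred S] {P : W → ℤ} (hP : Leg s t P)
    (hS : ∀ x, (S (s x) ∧ ¬ S (t x)) ∨ (¬ S (s x) ∧ S (t x)) →
      ¬ (6 : ℤ) ∣ P (s x) - P (t x) - 3) :
    ∀ a : ℕ, ∃ (P' : W → ℤ) (hP' : Leg s t P'), (∀ w, (3 : ℤ) ∣ P' w - P w) ∧
      (∀ x, (6 : ℤ) ∣ (P' (s x) - P' (t x)) - (P (s x) - P (t x))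
        - 3 * ((if S (s x) ∧ P (s x) % 3 < a then 1 else 0)
          - (if S (t x) ∧ P (t x) % 3 < a then 1 else 0))) ∧
      (G.intFlowGraph 6).Reachable (toF hD hP) (toF hD hP') := by
  intro a
  induction a with
  | zero =>
    refine ⟨P, hP, fun w => by simp, fun x => ?_, SimpleGraph.Reachable.refl _⟩
    have h : ∀ w, ¬ (S w ∧ P w % 3 < ((0 : ℕ) : ℤ)) := by
      intro w h
      have h1 := h.2
      have h2 : 0 ≤ P w % 3 := Int.emod_nonneg _ (by norm_num)
      push_cast at h1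
      omega
    rw [if_neg (h _), if_neg (h _)]
    simp
  | succ a ih =>
    obtain ⟨P1, hP1, h1, h2, h3⟩ := ih
    obtain ⟨P2, hP2, g1, g2, g3⟩ := kempe_move hD (fun w => S w ∧ P w % 3 = a) hP1 (by
      rintro u v ⟨-, hu⟩ ⟨-, hv⟩
      have b1 := h1 u
      have b2 := h1 v
      omega) (by
      intro x hx h6
      have b1 := h1 (s x)
      have b2 := h1 (t x)
      have b3 := h2 x
      have hmod : P (s x) % 3 = P (t x) % 3 := by omega
      rcases hx with ⟨⟨k1, k2⟩, k3⟩ | ⟨k3, ⟨k1, k2⟩⟩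
      · have k4 : ¬ S (t x) := fun h => k3 ⟨h, by rw [← hmod]; exact k2⟩
        have c1 : ¬ (S (s x) ∧ P (s x) % 3 < (a : ℤ)) := fun h => by have := h.2; omega
        have c2 : ¬ (S (t x) ∧ P (t x) % 3 < (a : ℤ)) := fun h => k4 h.1
        rw [if_neg c1, if_neg c2] at b3
        apply hS x (Or.inl ⟨k1, k4⟩)
        omega
      · have k4 : ¬ S (s x) := fun h => k3 ⟨h, by rw [hmod]; exact k2⟩
        have c1 : ¬ (S (s x) ∧ P (s x) % 3 < (a : ℤ)) := fun h => k4 h.1
        have c2 : ¬ (S (t x) ∧ P (t x) % 3 < (a : ℤ)) := fun h => by have := h.2; omega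
        rw [if_neg c1, if_neg c2] at b3
        apply hS x (Or.inr ⟨k4, k1⟩)
        omega)
    refine ⟨P2, hP2, ?_, ?_, h3.trans g3⟩
    · intro w
      have b1 := h1 w
      have b2 := g1 w
      omega
    · intro x
      have b1 := h2 x
      have b2 := g2 x
      have key : ∀ w, (if S w ∧ P w % 3 < ((a + 1 : ℕ) : ℤ) then (1 : ℤ) else 0)
          = (if S w ∧ P w % 3 < (a : ℤ) then 1 else 0) + (if S w ∧ P w % 3 = (a : ℤ) then 1 else 0) := by
        intro w
        by_cases k1 : S w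
        · rcases lt_trichotomy (P w % 3) (a : ℤ) with h | h | h
          · rw [if_pos ⟨k1, by push_cast; omega⟩, if_pos ⟨k1, h⟩, if_neg (fun h' => by
              have := h'.2; omega)]
            norm_num
          · rw [if_pos ⟨k1, by push_cast; omega⟩, if_neg (fun h' => by
              have := h'.2; omega), if_pos ⟨k1, h⟩]
            norm_num
          · rw [if_neg (fun h' => by have := h'.2; push_cast at this; omega), if_neg (fun h' => by
              have := h'.2; omega), if_neg (fun h' => by have := h'.2; omega)]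
            norm_num
        · simp [k1]
      rw [key, key]
      omega

theorem six_cases (ζ : ZMod 6) (h : ζ ≠ 0) :
    ζ = 1 ∨ ζ = 2 ∨ ζ = -1 ∨ ζ = -2 ∨ ζ = 3 := by
  revert ζ; decide

/-- every move between nowhere-zero `ℤ_6`-flows of a graph with a dual lifts to a path -/
theorem move_six {G : MGraph V E} {W : Type} {s t : E → W} (hD : G.IsDual s t)
    {f g : E → ZMod 6} (hf : ∀ x, f x ≠ 0) (hg : ∀ x, g x ≠ 0)
    (hfl : G.IsFlow f) (hgl : G.IsFlow g)
    (hC : G.IsCycle {x | f x - g x ≠ 0}) {F : E → ℤ} (hF : G.Lift 6 f F) :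
    ∃ G1 : E → ℤ, ∃ h2 : G.Lift 6 g G1,
      (G.intFlowGraph 6).Reachable (hF.toK hf) (h2.toK hg) := by
  obtain ⟨N, v, e, ε, hO, ζ, hζ, hz⟩ := decomp hfl hgl hC
  have fin : (∃ F1 G1, G.Lift 6 f F1 ∧ G.Lift 6 g G1 ∧ G.IsCycle {x | F1 x - G1 x ≠ 0}) →
      ∃ G1 : E → ℤ, ∃ h2 : G.Lift 6 g G1,
      (G.intFlowGraph 6).Reachable (hF.toK hf) (h2.toK hg) := by
    rintro ⟨F1, G1, h1, h2, h3⟩
    have h4 : (G.intFlowGraph 6).Adj (h1.toK hf) (h2.toK hg) := h3
    exact ⟨G1, h2, (lifts_reachable hf _ hF h1 le_rfl).trans h4.reachable⟩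
  have hpos : ∀ c : ℤ, (c = 1 ∨ c = 2) → ζ = (c : ZMod 6) →
      ∃ F1 G1, G.Lift 6 f F1 ∧ G.Lift 6 g G1 ∧ G.IsCycle {x | F1 x - G1 x ≠ 0} := by
    intro c hc h
    refine step hf hg hO (by norm_num) hc ?_ hF
    intro x
    push_cast
    rw [← h, ← hz x]
    ring
  have hneg : ∀ c : ℤ, (c = 1 ∨ c = 2) → ζ = -(c : ZMod 6) →
      ∃ F1 G1, G.Lift 6 f F1 ∧ G.Lift 6 g G1 ∧ G.IsCycle {x | F1 x - G1 x ≠ 0} := by
    intro c hc h
    obtain ⟨F1, G1, hF1, hG1, hcyc⟩ := step (f := fun x => - f x) (g := fun x => - g x)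
      (fun x => neg_ne_zero.2 (hf x)) (fun x => neg_ne_zero.2 (hg x)) hO (by norm_num) hc (by
        intro x
        push_cast
        have h1 : (c : ZMod 6) = - ζ := by rw [h]; ring
        rw [h1, neg_mul, ← hz x]
        ring) hF.neg
    refine ⟨fun x => - F1 x, fun x => - G1 x, ?_, ?_, ?_⟩
    · have := hF1.neg
      simpa using this
    · have := hG1.neg
      simpa using this
    · have : {x | (fun x => - F1 x) x - (fun x => - G1 x) x ≠ 0} = {x | F1 x - G1 x ≠ 0} := by
        ext x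
        simp only [Set.mem_setOf_eq]
        constructor
        · intro h h'
          apply h
          linarith
        · intro h h'
          apply h
          linarith
      rw [this]
      exact hcyc
  rcases six_cases ζ hζ with h | h | h | h | h
  · exact fin (hpos 1 (Or.inl rfl) (by rw [h]; simp))
  · exact fin (hpos 2 (Or.inr rfl) (by rw [h]; simp))
  · exact fin (hneg 1 (Or.inl rfl) (by rw [h]; simp))
  · exact fin (hneg 2 (Or.inr rfl) (by rw [h]; simp))
  · -- the case of three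
    obtain ⟨P, hPF⟩ := (hD ℤ F).1 hF.1
    obtain ⟨σ, hσ⟩ := (hD (ZMod 2) _).1 ((chi_flow hO.close hO.ori).cast 2)
    have hP : Leg s t P := by
      intro x
      rw [← hPF x]
      exact ⟨hF.ne hf x, hF.2.1 x⟩
    have hσ1 : ∀ w, (((if σ w = 1 then (1 : ℤ) else 0) : ℤ) : ZMod 2) = σ w := by
      intro w
      have : ∀ z : ZMod 2, (((if z = 1 then (1 : ℤ) else 0) : ℤ) : ZMod 2) = z := by decide
      exact this (σ w)
    have hpar : ∀ x, (2 : ℤ) ∣ chi N e ε x
        - ((if σ (s x) = 1 then 1 else 0) - (if σ (t x) = 1 then 1 else 0)) := by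
      intro x
      have h2 : ((chi N e ε x - ((if σ (s x) = 1 then (1 : ℤ) else 0)
          - (if σ (t x) = 1 then (1 : ℤ) else 0)) : ℤ) : ZMod 2) = 0 := by
        rw [Int.cast_sub, Int.cast_sub, hσ1, hσ1, hσ x, sub_self]
      rw [ZMod.intCast_zmod_eq_zero_iff_dvd] at h2
      exact_mod_cast h2
    have hg1 : ∀ x, g x = ((F x + 3 * ((if σ (s x) = 1 then (1 : ℤ) else 0)
        - (if σ (t x) = 1 then (1 : ℤ) else 0)) : ℤ) : ZMod 6) := by
      intro x
      have h3 : g x = ((F x + 3 * chi N e ε x : ℤ) : ZMod 6) := by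
        push_cast
        rw [hF.2.2 x]
        have := hz x
        rw [h] at this
        rw [← this]
        ring
      rw [h3, ← sub_eq_zero, ← Int.cast_sub, ZMod.intCast_zmod_eq_zero_iff_dvd]
      have := hpar x
      push_cast
      omega
    have hS : ∀ x, (σ (s x) = 1 ∧ ¬ σ (t x) = 1) ∨ (¬ σ (s x) = 1 ∧ σ (t x) = 1) →
        ¬ (6 : ℤ) ∣ P (s x) - P (t x) - 3 := by
      intro x hx h6
      apply hg x
      rw [hg1 x, ZMod.intCast_zmod_eq_zero_iff_dvd, hPF x]
      rcases hx with ⟨k1, k2⟩ | ⟨k1, k2⟩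
      · rw [if_pos k1, if_neg k2]
        push_cast
        omega
      · rw [if_neg k1, if_pos k2]
        push_cast
        omega
    obtain ⟨P', hP', h1, h2, h3⟩ := kempe_all hD (fun w => σ w = 1) hP hS 3
    have hL : G.Lift 6 g (fun x => P' (s x) - P' (t x)) := by
      refine ⟨(toF hD hP').2.1, fun x => (hP' x).2, fun x => ?_⟩
      rw [hg1 x, ← sub_eq_zero, ← Int.cast_sub, ZMod.intCast_zmod_eq_zero_iff_dvd, hPF x]
      have h4 := h2 x
      have key : ∀ w, (if σ w = 1 ∧ P w % 3 < ((3 : ℕ) : ℤ) then (1 : ℤ) else 0)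
          = (if σ w = 1 then 1 else 0) := by
        intro w
        have h5 : P w % 3 < 3 := Int.emod_lt_of_pos _ (by norm_num)
        by_cases k1 : σ w = 1
        · rw [if_pos k1, if_pos ⟨k1, by push_cast; exact h5⟩]
        · rw [if_neg k1, if_neg (fun h' => k1 h'.1)]
      rw [key, key] at h4
      push_cast
      omega
    refine ⟨_, hL, ?_⟩
    have heq : hF.toK hf = toF hD hP := by
      apply Subtype.ext
      funext x
      exact hPF x
    rw [heq]
    exact h3

theorem walk_reachable_six {G : MGraph V E} {W : Type} {s t : E → W} (hD : G.IsDual s t)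
    {f g : G.NZFlow (ZMod 6)} (p : (G.groupFlowGraph (ZMod 6)).Walk f g) :
    ∀ {F F' : E → ℤ} (hF : G.Lift 6 f.1 F) (hF' : G.Lift 6 g.1 F'),
      (G.intFlowGraph 6).Reachable (hF.toK f.2.2) (hF'.toK g.2.2) := by
  induction p with
  | nil =>
    intro F F' hF hF'
    exact lifts_reachable _ _ hF hF' le_rfl
  | @cons f f1 g hadj p ih =>
    intro F F' hF hF'
    obtain ⟨G1, hG1, h2⟩ := move_six hD f.2.2 f1.2.2 f.2.1 f1.2.1 hadj hF
    exact h2.trans (ih hG1 hF')

end MGraph

end Pool.Agent.K4H84.FR
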