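import Pool.Agent.K4H84.FR.Lift

set_option autoImplicit false
set_option linter.unusedSectionVars false

namespace Pool.Agent.K4H84.FR

variable {V E : Type} [Fintype V] [DecidableEq V] [Fintype E] [DecidableEq E]

namespace MGraph

/-- `v, e` is a cycle of length `N` and `ε i` tells whether `e i` is traversed forwards -/
structure Ori (G : MGraph V E) (N : ℕ) (v : ℕ → V) (e : ℕ → E) (ε : ℕ → ℤ) : Prop where
  two : 2 ≤ N
  close : v N = v 0
  vinj : ∀ i < N, ∀ j < N, v i = v j → i = j
  einj : ∀ i < N, ∀ j < N, e i = e j → i = j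
  ori : ∀ i < N, (ε i = 1 ∧ G.src (e i) = v i ∧ G.tgt (e i) = v (i + 1)) ∨
      (ε i = -1 ∧ G.src (e i) = v (i + 1) ∧ G.tgt (e i) = v i)

/-- the cut argument -/
theorem no_cut {G : MGraph V E} {k : ℕ} {f : E → ZMod k} (hf : ∀ x, f x ≠ 0)
    {N : ℕ} {v : ℕ → V} {e : ℕ → E} {ε : ℕ → ℤ} (hO : Ori G N v e ε)
    {F : E → ℤ} (hF : G.Lift k f F) {is : ℕ} (his : is < N) (hbad : ε is * F (e is) = k - 1)
    (hk : 2 ≤ k) (X : Finset V) (hX1 : G.hd F (e is) ∈ X) (hX2 : G.tl F (e is) ∉ X)
    (hX3 : ∀ x, (¬ ∃ i < N, e i = x ∧ ε i * F (e i) = -1) → G.tl F x ∈ X → G.hd F x ∈ X) :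
    False := by
  have hk' : (2 : ℤ) ≤ k := by exact_mod_cast hk
  have hcut := (hF.1.add (chi_flow hO.close hO.ori)).cut X
  have hoff : ∀ x, (¬ ∃ i < N, e i = x) → (F x + chi N e ε x) *
      ((if G.src x ∈ X then 1 else 0) - (if G.tgt x ∈ X then 1 else 0)) ≤ 0 := by
    intro x hx
    rw [chi_not hx, add_zero]
    have h1 := hX3 x (fun ⟨i, hi, h, _⟩ => hx ⟨i, hi, h⟩)
    have h2 := hF.ne hf x
    unfold tl hd at h1
    by_cases h : 0 < F x
    · rw [if_pos h, if_pos h] at h1
      split_ifs with h3 h4 h4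
      · simp
      · exact absurd (h1 h3) h4
      · linarith
      · simp
    · have h' : F x < 0 := lt_of_le_of_ne (not_lt.1 h) h2
      rw [if_neg h, if_neg h] at h1
      split_ifs with h3 h4 h4
      · simp
      · linarith
      · exact absurd (h1 h4) h3
      · simp
  have hon : ∀ i < N, (F (e i) + chi N e ε (e i)) *
      ((if G.src (e i) ∈ X then 1 else 0) - (if G.tgt (e i) ∈ X then 1 else 0))
      = (ε i * F (e i) + 1) * ((if v i ∈ X then 1 else 0) - (if v (i + 1) ∈ X then 1 else 0)) := by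
    intro i hi
    rw [chi_apply hO.einj hi]
    rcases hO.ori i hi with ⟨h1, h2, h3⟩ | ⟨h1, h2, h3⟩
    · rw [h1, h2, h3]; ring
    · rw [h1, h2, h3]; ring
  have hon2 : ∀ i < N, (ε i * F (e i) + 1) *
      ((if v i ∈ X then 1 else 0) - (if v (i + 1) ∈ X then 1 else 0)) ≤ 0 := by
    intro i hi
    by_cases hm : ε i * F (e i) = -1
    · rw [hm]; simp
    · have h1 := hX3 (e i) (by
        rintro ⟨j, hj, hji, hj2⟩
        have := hO.einj j hj i hi hji
        subst this
        exact hm hj2)
      have h2 := hF.ne hf (e i)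
      unfold tl hd at h1
      rcases hO.ori i hi with ⟨ha, hb, hc⟩ | ⟨ha, hb, hc⟩
      · rw [ha, one_mul] at hm ⊢
        rw [hb, hc] at h1
        by_cases h : 0 < F (e i)
        · rw [if_pos h, if_pos h] at h1
          split_ifs with h3 h4 h4
          · simp
          · exact absurd (h1 h3) h4
          · linarith
          · simp
        · have h' : F (e i) < 0 := lt_of_le_of_ne (not_lt.1 h) h2
          have h'' : F (e i) + 1 < 0 := by omega
          rw [if_neg h, if_neg h] at h1
          split_ifs with h3 h4 h4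
          · simp
          · linarith
          · exact absurd (h1 h4) h3
          · simp
      · rw [ha] at hm ⊢
        rw [hb, hc] at h1
        by_cases h : 0 < F (e i)
        · have h'' : -1 * F (e i) + 1 < 0 := by omega
          rw [if_pos h, if_pos h] at h1
          split_ifs with h3 h4 h4
          · simp
          · linarith
          · exact absurd (h1 h4) h3
          · simp
        · have h' : F (e i) < 0 := lt_of_le_of_ne (not_lt.1 h) h2
          have h'' : 0 < -1 * F (e i) + 1 := by omega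
          rw [if_neg h, if_neg h] at h1
          split_ifs with h3 h4 h4
          · simp
          · exact absurd (h1 h3) h4
          · linarith
          · simp
  have hle : ∀ x ∈ (Finset.univ : Finset E), (F x + chi N e ε x) *
      ((if G.src x ∈ X then 1 else 0) - (if G.tgt x ∈ X then 1 else 0)) ≤ 0 := by
    intro x _
    by_cases hx : ∃ i < N, e i = x
    · obtain ⟨i, hi, rfl⟩ := hx
      rw [hon i hi]
      exact hon2 i hi
    · exact hoff x hx
  have h0 := (Finset.sum_eq_zero_iff_of_nonpos hle).1 hcut (e is) (Finset.mem_univ _)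
  rw [hon is his, hbad] at h0
  unfold tl at hX2
  unfold hd at hX1
  rcases hO.ori is his with ⟨ha, hb, hc⟩ | ⟨ha, hb, hc⟩
  · rw [ha, one_mul] at hbad
    have hp : 0 < F (e is) := by omega
    rw [if_pos hp, hb] at hX2
    rw [if_pos hp, hc] at hX1
    rw [if_neg hX2, if_pos hX1] at h0
    linarith
  · rw [ha] at hbad
    have hp : ¬ 0 < F (e is) := by omega
    rw [if_neg hp, hc] at hX2
    rw [if_neg hp, hb] at hX1
    rw [if_neg hX2, if_pos hX1] at h0
    linarith

/-- some lift has no edge of the cycle with value `k - 1` in the direction of the cycle -/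
theorem unbad {G : MGraph V E} {k : ℕ} {f : E → ZMod k} (hf : ∀ x, f x ≠ 0)
    {N : ℕ} {v : ℕ → V} {e : ℕ → E} {ε : ℕ → ℤ} (hO : Ori G N v e ε) (hk : 2 ≤ k) :
    ∀ (m : ℕ) {F : E → ℤ}, G.Lift k f F →
      ((Finset.range N).filter (fun i => ε i * F (e i) = k - 1)).card ≤ m →
      ∃ F', G.Lift k f F' ∧ ∀ i < N, ε i * F' (e i) ≠ k - 1 := by
  have hk' : (2 : ℤ) ≤ k := by exact_mod_cast hk
  intro m
  induction m with
  | zero =>
    intro F hF hm
    refine ⟨F, hF, fun i hi h => ?_⟩
    have : i ∈ (Finset.range N).filter (fun i => ε i * F (e i) = k - 1) := by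
      simp [hi, h]
    rw [Finset.card_eq_zero.1 (Nat.le_zero.1 hm)] at this
    simp at this
  | succ m ih =>
    intro F hF hm
    by_cases hne : ∃ is < N, ε is * F (e is) = k - 1
    · obtain ⟨is, his, hbad⟩ := hne
      rcases path_or_cut (G.tl F) (G.hd F) {x | ¬ ∃ i < N, e i = x ∧ ε i * F (e i) = -1}
        (G.hd F (e is)) (G.tl F (e is)) (e is) with
        ⟨X, hX1, hX2, hX3⟩ | ⟨n, u, q, hu0, hun, hq, hinj⟩
      · exact (no_cut hf hO hF his hbad hk X hX1 hX2 (fun x hx => hX3 x hx)).elim
      · obtain ⟨F1, hF1, -, hes1, hall⟩ := flip hf hF (e is) hu0 hun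
          (fun i hi => ⟨(hq i hi).2.1, (hq i hi).2.2⟩) hinj
        refine ih hF1 ?_
        have hsub : (Finset.range N).filter (fun i => ε i * F1 (e i) = k - 1)
            ⊆ ((Finset.range N).filter (fun i => ε i * F (e i) = k - 1)).erase is := by
          intro i hi
          simp only [Finset.mem_filter, Finset.mem_range, Finset.mem_erase] at hi ⊢
          obtain ⟨hiN, hi1⟩ := hi
          have hsgn : ∀ j < N, ε j * F1 (e j) = k - 1 → F1 (e j) = F (e j) - k * sg F (e j) →
              ε j * F (e j) = -1 := by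
            intro j hj h1 h2
            have h3 := hF.ne hf (e j)
            have h4 := abs_lt.1 (hF.2.1 (e j))
            rw [h2] at h1
            unfold sg at h1
            rcases hO.ori j hj with ⟨ha, -, -⟩ | ⟨ha, -, -⟩
            · rw [ha] at h1 ⊢
              split_ifs at h1 with h5
              · linarith
              · linarith
            · rw [ha] at h1 ⊢
              split_ifs at h1 with h5
              · linarith
              · have : F (e j) < 0 := lt_of_le_of_ne (not_lt.1 h5) h3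
                linarith
          constructor
          · rintro rfl
            have := hsgn i hiN hi1 hes1
            rw [hbad] at this
            linarith
          · refine ⟨hiN, ?_⟩
            rcases hall (e i) with h | ⟨h1, h2⟩
            · rw [← h]; exact hi1
            · have h3 := hsgn i hiN hi1 h2
              rcases h1 with h1 | ⟨j, hj, h1⟩
              · have := hO.einj i hiN is his h1
                subst this
                exact hbad
              · exfalso
                apply (hq j hj).1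
                exact ⟨i, hiN, h1.symm, h3⟩
        have := Finset.card_le_card hsub
        rw [Finset.card_erase_of_mem (by simp [his, hbad])] at this
        omega
    · push Not at hne
      exact ⟨F, hF, hne⟩

/-- one move of size at most two in the direction of the cycle can be lifted -/
theorem step {G : MGraph V E} {k : ℕ} {f g : E → ZMod k} (hf : ∀ x, f x ≠ 0)
    (hg : ∀ x, g x ≠ 0)
    {N : ℕ} {v : ℕ → V} {e : ℕ → E} {ε : ℕ → ℤ} (hO : Ori G N v e ε) (hk : 2 ≤ k)
    {c : ℤ} (hc : c = 1 ∨ c = 2)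
    (hfg : ∀ x, g x = f x + ((c * chi N e ε x : ℤ) : ZMod k)) {F : E → ℤ} (hF : G.Lift k f F) :
    ∃ F1 G1, G.Lift k f F1 ∧ G.Lift k g G1 ∧ G.IsCycle {x | F1 x - G1 x ≠ 0} := by
  have hk' : (2 : ℤ) ≤ k := by exact_mod_cast hk
  obtain ⟨F1, hF1, hgood⟩ := unbad hf hO hk _ hF le_rfl
  have hcast : ∀ x, ((F1 x + c * chi N e ε x : ℤ) : ZMod k) = g x := by
    intro x
    rw [hfg x, ← hF1.2.2 x]
    push_cast
    ring
  have hne : ∀ x (t : ℤ), F1 x + c * chi N e ε x ≠ k * t := by
    intro x t h
    apply hg x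
    rw [← hcast x, h]
    simp
  refine ⟨F1, fun x => F1 x + c * chi N e ε x, hF1,
    ⟨hF1.1.add ((chi_flow hO.close hO.ori).mul c), ?_, hcast⟩, ?_⟩
  · intro x
    by_cases hx : ∃ i < N, e i = x
    · obtain ⟨i, hi, rfl⟩ := hx
      have h1 := abs_lt.1 (hF1.2.1 (e i))
      have h2 := hgood i hi
      have h3 := hne (e i) 1
      have h4 := hne (e i) (-1)
      simp only [chi_apply hO.einj hi] at h3 h4 ⊢
      rw [abs_lt]
      rcases hO.ori i hi with ⟨ha, -, -⟩ | ⟨ha, -, -⟩
      · rw [ha] at h2 h3 h4 ⊢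
        rcases hc with rfl | rfl <;> constructor <;> omega
      · rw [ha] at h2 h3 h4 ⊢
        rcases hc with rfl | rfl <;> constructor <;> omega
    · simp only [chi_not hx, mul_zero, add_zero]
      exact hF1.2.1 x
  · refine ⟨N, v, e, hO.two, hO.close, hO.vinj, hO.einj, ?_, ?_⟩
    · intro i hi
      rcases hO.ori i hi with ⟨-, h1, h2⟩ | ⟨-, h1, h2⟩
      · exact Or.inl ⟨h1, h2⟩
      · exact Or.inr ⟨h1, h2⟩
    · ext x
      simp only [Set.mem_setOf_eq]
      constructor
      · intro h
        by_contra hx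
        apply h
        rw [chi_not hx]
        ring
      · rintro ⟨i, hi, rfl⟩
        rw [chi_apply hO.einj hi]
        rcases hO.ori i hi with ⟨ha, -, -⟩ | ⟨ha, -, -⟩
        · rw [ha]
          rcases hc with rfl | rfl <;> omega
        · rw [ha]
          rcases hc with rfl | rfl <;> omega

/-- a flow supported on a cycle is a multiple of the signed indicator function of the cycle -/
theorem decomp {G : MGraph V E} {k : ℕ} {f g : E → ZMod k}
    (hfl : G.IsFlow f) (hgl : G.IsFlow g) (hC : G.IsCycle {x | f x - g x ≠ 0}) :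
    ∃ (N : ℕ) (v : ℕ → V) (e : ℕ → E) (ε : ℕ → ℤ), Ori G N v e ε ∧ ∃ ζ : ZMod k, ζ ≠ 0 ∧
      ∀ x, g x - f x = ζ * ((chi N e ε x : ℤ) : ZMod k) := by
  obtain ⟨N, v, e, hN, hclose, vinj, einj, hjoin, hset⟩ := hC
  set ε : ℕ → ℤ := fun i => if G.src (e i) = v i then 1 else -1 with hε
  have hO : Ori G N v e ε := by
    refine ⟨hN, hclose, vinj, einj, ?_⟩
    intro i hi
    rcases hjoin i hi with ⟨h1, h2⟩ | ⟨h1, h2⟩
    · left
      exact ⟨by simp only [hε, if_pos h1], h1, h2⟩
    · right
      refine ⟨?_, h1, h2⟩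
      have : ¬ G.src (e i) = v i := by
        intro h
        exact G.loopless (e i) (by rw [h, h2])
      simp only [hε, if_neg this]
  refine ⟨N, v, e, ε, hO, ?_⟩
  set z : E → ZMod k := fun x => g x - f x with hz
  have hzf : G.IsFlow z := hgl.sub hfl
  have hz0 : ∀ x, (¬ ∃ i < N, e i = x) → z x = 0 := by
    intro x hx
    by_contra h
    have h1 : x ∈ {x | f x - g x ≠ 0} := by
      simp only [Set.mem_setOf_eq]
      intro h2
      apply h
      simp only [hz]
      rw [sub_eq_zero] at h2 ⊢
      exact h2.symm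
    rw [hset] at h1
    exact hx h1
  have hz1 : z (e 0) ≠ 0 := by
    have h1 : e 0 ∈ {x | ∃ i < N, e i = x} := ⟨0, by omega, rfl⟩
    rw [← hset] at h1
    simp only [Set.mem_setOf_eq] at h1
    intro h
    apply h1
    simp only [hz] at h
    rw [sub_eq_zero] at h ⊢
    exact h.symm
  have hzchi : z = chi N e (fun j => z (e j)) := by
    funext x
    by_cases hx : ∃ i < N, e i = x
    · obtain ⟨i, hi, rfl⟩ := hx
      rw [chi_apply einj hi]
    · rw [chi_not hx, hz0 x hx]
  have hcons : ∀ w, ∑ j ∈ Finset.range N, ((if v j = w then (ε j : ZMod k) * z (e j) else 0)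
      - (if v (j + 1) = w then (ε j : ZMod k) * z (e j) else 0)) = 0 := by
    intro w
    have h1 := hzf w
    rw [hzchi, chi_sum, chi_sum, ← sub_eq_zero, ← Finset.sum_sub_distrib] at h1
    refine Eq.trans ?_ h1
    refine Finset.sum_congr rfl fun j hj => ?_
    rcases hO.ori j (Finset.mem_range.1 hj) with ⟨ha, hb, hc⟩ | ⟨ha, hb, hc⟩
    · rw [ha, hb, hc]; simp
    · rw [ha, hb, hc]
      split_ifs <;> simp
  have hstep : ∀ i, i + 1 < N → (ε (i + 1) : ZMod k) * z (e (i + 1)) = (ε i : ZMod k) * z (e i) := by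
    intro i hi
    have h1 := hcons (v (i + 1))
    rw [Finset.sum_sub_distrib, sub_eq_zero] at h1
    rw [Finset.sum_eq_single (i + 1), Finset.sum_eq_single i] at h1
    · simpa using h1
    · intro j hj hji
      rw [if_neg]
      intro h
      have hj' := Finset.mem_range.1 hj
      by_cases hjN : j + 1 < N
      · have := vinj (j + 1) hjN (i + 1) hi h
        omega
      · have hjN' : j + 1 = N := by omega
        rw [hjN', hclose] at h
        have := vinj 0 (by omega) (i + 1) hi h
        omega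
    · intro h
      exact absurd (Finset.mem_range.2 (by omega)) h
    · intro j hj hji
      rw [if_neg]
      intro h
      exact hji (vinj j (Finset.mem_range.1 hj) (i + 1) hi h)
    · intro h
      exact absurd (Finset.mem_range.2 hi) h
  have hconst : ∀ i, i < N → (ε i : ZMod k) * z (e i) = (ε 0 : ZMod k) * z (e 0) := by
    intro i
    induction i with
    | zero => intro _; rfl
    | succ i ih =>
      intro hi
      rw [hstep i hi]
      exact ih (by omega)
  have hsq : ∀ i < N, (ε i : ZMod k) * (ε i : ZMod k) = 1 := by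
    intro i hi
    rcases hO.ori i hi with ⟨ha, -, -⟩ | ⟨ha, -, -⟩
    · rw [ha]; simp
    · rw [ha]; simp
  refine ⟨(ε 0 : ZMod k) * z (e 0), ?_, ?_⟩
  · intro h
    apply hz1
    have : (ε 0 : ZMod k) * ((ε 0 : ZMod k) * z (e 0)) = 0 := by rw [h, mul_zero]
    rw [← mul_assoc, hsq 0 (by omega), one_mul] at this
    exact this
  · intro x
    by_cases hx : ∃ i < N, e i = x
    · obtain ⟨i, hi, rfl⟩ := hx
      rw [chi_apply einj hi, ← hconst i hi]
      have : (ε i : ZMod k) * z (e i) * (ε i : ZMod k)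
          = ((ε i : ZMod k) * (ε i : ZMod k)) * z (e i) := by ring
      rw [this, hsq i hi, one_mul]
    · rw [chi_not hx]
      have := hz0 x hx
      simp only [hz] at this
      rw [this]
      simp

theorem Lift.neg {G : MGraph V E} {k : ℕ} {f : E → ZMod k} {F : E → ℤ} (h : G.Lift k f F) :
    G.Lift k (fun x => - f x) (fun x => - F x) := by
  refine ⟨h.1.neg, fun x => ?_, fun x => ?_⟩
  · simp only [abs_neg]
    exact h.2.1 x
  · push_cast
    rw [h.2.2 x]

theorem small_cases {k : ℕ} (hk : 2 ≤ k) (hk5 : k ≤ 5) (ζ : ZMod k) (h : ζ ≠ 0) :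
    ζ = 1 ∨ ζ = 2 ∨ ζ = -1 ∨ ζ = -2 := by
  interval_cases k
  · revert ζ; decide
  · revert ζ; decide
  · revert ζ; decide
  · revert ζ; decide

/-- every move between nowhere-zero `ℤ_k`-flows lifts, for `k ≤ 5` -/
theorem move {G : MGraph V E} {k : ℕ} (hk : 2 ≤ k) (hk5 : k ≤ 5) {f g : E → ZMod k}
    (hf : ∀ x, f x ≠ 0) (hg : ∀ x, g x ≠ 0) (hfl : G.IsFlow f) (hgl : G.IsFlow g)
    (hC : G.IsCycle {x | f x - g x ≠ 0}) {F : E → ℤ} (hF : G.Lift k f F) :
    ∃ F1 G1, G.Lift k f F1 ∧ G.Lift k g G1 ∧ G.IsCycle {x | F1 x - G1 x ≠ 0} := by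
  obtain ⟨N, v, e, ε, hO, ζ, hζ, hz⟩ := decomp hfl hgl hC
  have hpos : ∀ c : ℤ, (c = 1 ∨ c = 2) → ζ = (c : ZMod k) →
      ∃ F1 G1, G.Lift k f F1 ∧ G.Lift k g G1 ∧ G.IsCycle {x | F1 x - G1 x ≠ 0} := by
    intro c hc h
    refine step hf hg hO hk hc ?_ hF
    intro x
    push_cast
    rw [← h, ← hz x]
    ring
  have hneg : ∀ c : ℤ, (c = 1 ∨ c = 2) → ζ = -(c : ZMod k) →
      ∃ F1 G1, G.Lift k f F1 ∧ G.Lift k g G1 ∧ G.IsCycle {x | F1 x - G1 x ≠ 0} := by
    intro c hc h
    obtain ⟨F1, G1, hF1, hG1, hcyc⟩ := step (f := fun x => - f x) (g := fun x => - g x)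
      (fun x => neg_ne_zero.2 (hf x)) (fun x => neg_ne_zero.2 (hg x)) hO hk hc (by
        intro x
        push_cast
        have h1 : (c : ZMod k) = - ζ := by rw [h]; ring
        rw [h1, neg_mul, ← hz x]
        ring) hF.neg
    refine ⟨fun x => - F1 x, fun x => - G1 x, ?_, ?_, ?_⟩
    · have := hF1.neg
      simpa using this
    · have := hG1.neg
      simpa using this
    · have : {x | (fun x => - F1 x) x - (fun x => - G1 x) x ≠ 0} = {x | F1 x - G1 x ≠ 0} := by
        ext x
        simp only [Set.mem_setOf_eq]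
        constructor
        · intro h h'
          apply h
          linarith
        · intro h h'
          apply h
          linarith
      rw [this]
      exact hcyc
  rcases small_cases hk hk5 ζ hζ with h | h | h | h
  · exact hpos 1 (Or.inl rfl) (by rw [h]; simp)
  · exact hpos 2 (Or.inr rfl) (by rw [h]; simp)
  · exact hneg 1 (Or.inl rfl) (by rw [h]; simp)
  · exact hneg 2 (Or.inr rfl) (by rw [h]; simp)

theorem walk_reachable {G : MGraph V E} {k : ℕ} (hk : 2 ≤ k) (hk5 : k ≤ 5)
    {f g : G.NZFlow (ZMod k)} (p : (G.groupFlowGraph (ZMod k)).Walk f g) :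
    ∀ {F F' : E → ℤ} (hF : G.Lift k f.1 F) (hF' : G.Lift k g.1 F'),
      (G.intFlowGraph k).Reachable (hF.toK f.2.2) (hF'.toK g.2.2) := by
  induction p with
  | nil =>
    intro F F' hF hF'
    exact lifts_reachable _ _ hF hF' le_rfl
  | @cons f f1 g hadj p ih =>
    intro F F' hF hF'
    obtain ⟨F1, G1, hF1, hG1, hcyc⟩ := move hk hk5 f.2.2 f1.2.2 f.2.1 f1.2.1 hadj hF
    have h1 := lifts_reachable f.2.2 _ hF hF1 le_rfl
    have h2 : (G.intFlowGraph k).Adj (hF1.toK f.2.2) (hG1.toK f1.2.2) := hcyc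
    exact h1.trans (h2.reachable.trans (ih hG1 hF'))

end MGraph

end Pool.Agent.K4H84.FR
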